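import Pool.Agent.W5h62.FS.Final

/-!
# Solutions of Fermat's equation of small height are rare: exponents
-/

set_option autoImplicit false

namespace Pool.Agent.W5h62.FS

open NumberField NumberField.Units

lemma card_le_of_lt (s : Finset ℕ) {y : ℝ} (h : ∀ p ∈ s, 1 ≤ p ∧ (p : ℝ) < y) (hy : 0 ≤ y) :
    (s.card : ℝ) ≤ y := by
  have h1 : s ⊆ Finset.Icc 1 ⌊y⌋₊ := by
    intro p hp
    rw [Finset.mem_Icc]
    exact ⟨(h p hp).1, Nat.le_floor (h p hp).2.le⟩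
  have h2 := Finset.card_le_card h1
  rw [Nat.card_Icc, Nat.add_sub_cancel] at h2
  calc (s.card : ℝ) ≤ (⌊y⌋₊ : ℝ) := by exact_mod_cast h2
    _ ≤ y := Nat.floor_le hy

theorem cor (K : Type) [Field K] [NumberField K] {C : ℝ} (hC : 0 < C)
    (hmain : ∀ L : ℝ, 1 ≤ L → ∀ X : ℝ, 2 ≤ X → ∀ s : Finset (ℕ × K × K),
      (∀ t ∈ s, t.1.Prime ∧ C * L ≤ t.1 ∧ (t.1 : ℝ) ≤ X ∧ Small K L t.1 t.2.1 t.2.2) →
      (s.card : ℝ) ≤ C * L ^ (rank K - 1) * Real.log X ^ (2 * rank K))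
    (L X : ℝ) (hL : 1 ≤ L) (hX : 2 ≤ X) (s : Finset ℕ)
    (hs : ∀ p ∈ s, p.Prime ∧ (p : ℝ) ≤ X ∧ ∃ x y : K, Small K L p x y) :
    (s.card : ℝ) ≤ C * (L + L ^ (rank K - 1) * Real.log X ^ (2 * rank K)) := by
  classical
  have h1 : (((s.filter fun p : ℕ => (p : ℝ) < C * L).card : ℕ) : ℝ) ≤ C * L := by
    refine card_le_of_lt _ ?_ (by positivity)
    intro p hp
    rw [Finset.mem_filter] at hp
    exact ⟨(hs p hp.1).1.one_le, hp.2⟩
  have h2 : (((s.filter fun p : ℕ => ¬ (p : ℝ) < C * L).card : ℕ) : ℝ) ≤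
      C * L ^ (rank K - 1) * Real.log X ^ (2 * rank K) := by
    have key : ∀ p ∈ s, ∃ z : K × K, Small K L p z.1 z.2 := fun p hp => by
      obtain ⟨x, y, h⟩ := (hs p hp).2.2
      exact ⟨(x, y), h⟩
    choose! f hf using key
    have hinj : Function.Injective fun p : ℕ => (p, f p) := fun p q h => (Prod.mk.injEq _ _ _ _ ▸ h).1
    have h3 := hmain L hL X hX ((s.filter fun p : ℕ => ¬ (p : ℝ) < C * L).image fun p => (p, f p)) (by
      intro t ht
      rw [Finset.mem_image] at ht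
      obtain ⟨p, hp, rfl⟩ := ht
      rw [Finset.mem_filter] at hp
      exact ⟨(hs p hp.1).1, not_lt.1 hp.2, (hs p hp.1).2.1, hf p hp.1⟩)
    rwa [Finset.card_image_of_injective _ hinj] at h3
  have h4 := Finset.card_filter_add_card_filter_not (s := s) (fun p : ℕ => (p : ℝ) < C * L)
  calc (s.card : ℝ) = (((s.filter fun p : ℕ => (p : ℝ) < C * L).card : ℕ) : ℝ) +
        (((s.filter fun p : ℕ => ¬ (p : ℝ) < C * L).card : ℕ) : ℝ) := by
          rw [← h4]; push_cast; rfl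
    _ ≤ C * L + C * L ^ (rank K - 1) * Real.log X ^ (2 * rank K) := add_le_add h1 h2
    _ = _ := by ring

end Pool.Agent.W5h62.FS
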