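import Mathlib

/-!
# Families of points near tripods with equal weighted sums
-/

set_option autoImplicit false

namespace Pool.Agent.W5h62.FS

open Finset

variable {ι : Type} [Fintype ι] [DecidableEq ι]

/-- nonnegative `X w j`, `j < 3`, two of the three numbers are at most `Q` for every `w`, and the weighted sums
over `w` are equal for the three `j` -/
structure Tri (m : ι → ℝ) (Q R : ℝ) (X : ι → Fin 3 → ℝ) : Prop where
  nonneg : ∀ w j, 0 ≤ X w j
  le : ∀ w j, X w j ≤ R
  letter : ∀ w, ∃ l : Fin 3, ∀ j, j ≠ l → X w j ≤ Q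
  sum : ∀ j j', ∑ w, m w * X w j = ∑ w, m w * X w j'

/-- a place which is not in `univ.erase` -/
lemma exists_third (i j : Fin 3) : ∃ k : Fin 3, k ≠ i ∧ k ≠ j := by
  revert i j
  decide

/-- the excluded places -/
noncomputable def Exc (l : ι → Fin 3) : Finset ι :=
  open Classical in
  if h : ∃ w : ι × ι, l w.1 ≠ l w.2 then {h.choose.1, h.choose.2} else univ

lemma exc_cases (l : ι → Fin 3) : Exc l = univ ∧ (∀ w w', l w = l w') ∨
    ∃ w₁ w₂ : ι, l w₁ ≠ l w₂ ∧ Exc l = {w₁, w₂} := by
  classical
  by_cases h : ∃ w : ι × ι, l w.1 ≠ l w.2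
  · right
    exact ⟨h.choose.1, h.choose.2, h.choose_spec, by unfold Exc; rw [dif_pos h]⟩
  · left
    refine ⟨by unfold Exc; rw [dif_neg h], fun w w' => ?_⟩
    by_contra hne
    exact h ⟨(w, w'), hne⟩

omit [Fintype ι] [DecidableEq ι] in
lemma sum_diff_le {m : ι → ℝ} {D : ℝ} (hm : ∀ w, 0 ≤ m w) (s : Finset ι) (f g : ι → ℝ)
    (h : ∀ w ∈ s, |f w - g w| ≤ D) :
    |∑ w ∈ s, m w * f w - ∑ w ∈ s, m w * g w| ≤ (∑ w ∈ s, m w) * D := by
  rw [← Finset.sum_sub_distrib, Finset.sum_mul]
  refine (Finset.abs_sum_le_sum_abs _ _).trans (Finset.sum_le_sum fun w hw => ?_)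
  rw [← mul_sub, abs_mul, abs_of_nonneg (hm w)]
  exact mul_le_mul_of_nonneg_left (h w hw) (hm w)

/-- the excluded coordinates are determined by the others -/
lemma tri_close {m : ι → ℝ} {Q R d : ℝ} (hQ : 0 ≤ Q) (hm : ∀ w, 1 ≤ m w) (hd : ∑ w, m w = d)
    {X Y : ι → Fin 3 → ℝ} (hX : Tri m Q R X) (hY : Tri m Q R Y) (l : ι → Fin 3)
    (lX : ∀ w, ∀ j, j ≠ l w → X w j ≤ Q) (lY : ∀ w, ∀ j, j ≠ l w → Y w j ≤ Q)
    (h : ∀ w, w ∉ Exc l → |X w (l w) - Y w (l w)| ≤ Q) (w : ι) (j : Fin 3) :
    |X w j - Y w j| ≤ 2 * d * Q := by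
  have hm0 : ∀ w, 0 ≤ m w := fun w => by linarith [hm w]
  have hd1 : 1 ≤ d := by
    rw [← hd]
    exact (hm w).trans (Finset.single_le_sum (f := m) (fun i _ => hm0 i) (Finset.mem_univ w))
  have hdQ : Q ≤ 2 * d * Q := by nlinarith
  have hsmall : ∀ (a b : ℝ), 0 ≤ a → a ≤ Q → 0 ≤ b → b ≤ Q → |a - b| ≤ Q := by
    intro a b h1 h2 h3 h4
    rw [abs_le]
    constructor <;> linarith
  have hother : ∀ w j, j ≠ l w → |X w j - Y w j| ≤ Q := fun w j hj =>
    hsmall _ _ (hX.nonneg w j) (lX w j hj) (hY.nonneg w j) (lY w j hj)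
  by_cases hj : j = l w
  swap
  · exact (hother w j hj).trans hdQ
  subst hj
  by_cases hw : w ∈ Exc l
  swap
  · exact (h w hw).trans hdQ
  rcases exc_cases l with ⟨-, hl⟩ | ⟨w₁, w₂, hne, hE⟩
  · -- all letters are the same
    obtain ⟨k, hk, -⟩ := exists_third (l w) (l w)
    have hbound : ∀ Z : ι → Fin 3 → ℝ, Tri m Q R Z → (∀ w, ∀ j, j ≠ l w → Z w j ≤ Q) →
        Z w (l w) ≤ d * Q := by
      intro Z hZ lZ
      have h1 : ∑ v, m v * Z v k ≤ d * Q := by
        rw [← hd, Finset.sum_mul]
        refine Finset.sum_le_sum fun v _ => mul_le_mul_of_nonneg_left (lZ v k ?_) (hm0 v)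
        rw [hl v w]
        exact hk
      have h2 : m w * Z w (l w) ≤ ∑ v, m v * Z v (l w) :=
        Finset.single_le_sum (f := fun v => m v * Z v (l w))
          (fun v _ => mul_nonneg (hm0 v) (hZ.nonneg v _)) (Finset.mem_univ w)
      rw [hZ.sum (l w) k] at h2
      have h3 : Z w (l w) ≤ m w * Z w (l w) := by
        nlinarith [hm w, hZ.nonneg w (l w)]
      linarith
    have h1 := hbound X hX lX
    have h2 := hbound Y hY lY
    have h3 := hX.nonneg w (l w)
    have h4 := hY.nonneg w (l w)
    rw [abs_le]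
    constructor <;> nlinarith
  · -- two different letters
    -- the third letter
    have hmain : ∀ (u u' : ι), l u ≠ l u' → Exc l = {u, u'} →
        |X u (l u) - Y u (l u)| ≤ 2 * d * Q := by
      intro u u' huu hEu
      obtain ⟨k, hk1, hk2⟩ := exists_third (l u) (l u')
      have hall : ∀ v, |X v k - Y v k| ≤ Q := by
        intro v
        by_cases hv : k = l v
        · have hvE : v ∉ Exc l := by
            rw [hEu, Finset.mem_insert, Finset.mem_singleton]
            rintro (rfl | rfl)
            · exact hk1 hv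
            · exact hk2 hv
          have := h v hvE
          rw [← hv] at this
          exact this
        · exact hother v k hv
      have hall2 : ∀ v ∈ Finset.univ.erase u, |X v (l u) - Y v (l u)| ≤ Q := by
        intro v hv
        have hvu : v ≠ u := Finset.ne_of_mem_erase hv
        by_cases hlv : l u = l v
        · have hvE : v ∉ Exc l := by
            rw [hEu, Finset.mem_insert, Finset.mem_singleton]
            rintro (rfl | rfl)
            · exact hvu rfl
            · exact huu hlv
          have := h v hvE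
          rw [← hlv] at this
          exact this
        · exact hother v (l u) hlv
      have s1 := sum_diff_le hm0 Finset.univ (fun v => X v k) (fun v => Y v k) fun v _ => hall v
      have s2 := sum_diff_le hm0 (Finset.univ.erase u) (fun v => X v (l u))
        (fun v => Y v (l u)) hall2
      have s3 : ∑ v ∈ Finset.univ.erase u, m v ≤ d := by
        rw [← hd]
        exact Finset.sum_le_sum_of_subset_of_nonneg (Finset.erase_subset _ _)
          fun v _ _ => hm0 v
      rw [hd] at s1
      have eX := Finset.add_sum_erase Finset.univ (fun v => m v * X v (l u)) (Finset.mem_univ u)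
      have eY := Finset.add_sum_erase Finset.univ (fun v => m v * Y v (l u)) (Finset.mem_univ u)
      have fX := hX.sum (l u) k
      have fY := hY.sum (l u) k
      have s4 : |m u * (X u (l u) - Y u (l u))| ≤ 2 * d * Q := by
        have e : m u * (X u (l u) - Y u (l u)) =
            (∑ v, m v * X v k - ∑ v, m v * Y v k) -
            (∑ v ∈ Finset.univ.erase u, m v * X v (l u) -
              ∑ v ∈ Finset.univ.erase u, m v * Y v (l u)) := by
          rw [← fX, ← fY, ← eX, ← eY]
          ring
        rw [e]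
        refine (abs_sub _ _).trans ?_
        nlinarith
      rw [abs_mul, abs_of_nonneg (hm0 u)] at s4
      nlinarith [hm u, abs_nonneg (X u (l u) - Y u (l u))]
    rw [hE, Finset.mem_insert, Finset.mem_singleton] at hw
    rcases hw with rfl | rfl
    · exact hmain _ _ hne hE
    · exact hmain _ _ hne.symm (by rw [hE, Finset.pair_comm])

/-- the number of classes -/
theorem tri_classes {m : ι → ℝ} {Q R d : ℝ} (hQ : 0 < Q) (hR : 0 ≤ R) (hm : ∀ w, 1 ≤ m w)
    (hd : ∑ w, m w = d) : ∃ (g : (ι → Fin 3 → ℝ) → (ι → Fin 3) × (ι → ℕ))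
      (F : Finset ((ι → Fin 3) × (ι → ℕ))),
      (∀ X, Tri m Q R X → g X ∈ F) ∧
      (F.card : ℝ) ≤ 3 ^ Fintype.card ι * (R / Q + 1) ^ (Fintype.card ι - 2) ∧
      ∀ X Y, Tri m Q R X → Tri m Q R Y → g X = g Y → ∀ w j, |X w j - Y w j| ≤ 2 * d * Q := by
  classical
  -- the letters
  have hl : ∀ X : ι → Fin 3 → ℝ, ∃ l : ι → Fin 3, Tri m Q R X → ∀ w j, j ≠ l w → X w j ≤ Q := by
    intro X
    by_cases hX : Tri m Q R X
    · choose l hl using hX.letter
      exact ⟨l, fun _ => hl⟩
    · exact ⟨fun _ => 0, fun h => absurd h hX⟩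
  choose l hl using hl
  obtain ⟨N, hN⟩ : ∃ N : ℕ, N = ⌊R / Q⌋₊ := ⟨_, rfl⟩
  refine ⟨fun X => (l X, fun w => if w ∈ Exc (l X) then 0 else ⌊X w (l X w) / Q⌋₊),
    Finset.univ.biUnion fun l' => (Fintype.piFinset fun w =>
      if w ∈ Exc l' then {0} else Finset.range (N + 1)).image fun n => (l', n), ?_, ?_, ?_⟩
  · intro X hX
    rw [Finset.mem_biUnion]
    refine ⟨l X, Finset.mem_univ _, Finset.mem_image.2 ⟨_, ?_, rfl⟩⟩
    rw [Fintype.mem_piFinset]
    intro w
    by_cases hw : w ∈ Exc (l X)
    · rw [if_pos hw, if_pos hw]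
      exact Finset.mem_singleton_self _
    · rw [if_neg hw, if_neg hw, Finset.mem_range, hN, Nat.lt_succ_iff]
      exact Nat.floor_le_floor ((div_le_div_iff_of_pos_right hQ).2 (hX.le w _))
  · have h1 : ∀ l' : ι → Fin 3, (((Fintype.piFinset fun w =>
        if w ∈ Exc l' then ({0} : Finset ℕ) else Finset.range (N + 1)).image
          fun n => (l', n)).card : ℝ) ≤ (R / Q + 1) ^ (Fintype.card ι - 2) := by
      intro l'
      have h2 : ((Fintype.piFinset fun w =>
        if w ∈ Exc l' then ({0} : Finset ℕ) else Finset.range (N + 1)).image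
          fun n => (l', n)).card ≤ (N + 1) ^ (Fintype.card ι - 2) := by
        refine Finset.card_image_le.trans ?_
        rw [Fintype.card_piFinset]
        have h3 : ∀ w, (if w ∈ Exc l' then ({0} : Finset ℕ) else Finset.range (N + 1)).card =
            if w ∈ Exc l' then 1 else N + 1 := by
          intro w
          split_ifs <;> simp
        rw [Finset.prod_congr rfl fun w _ => h3 w, Finset.prod_ite]
        rw [Finset.prod_const_one, one_mul, Finset.prod_const]
        refine Nat.pow_le_pow_right (by omega) ?_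
        have h4 : (Finset.univ.filter fun w => ¬ w ∈ Exc l') = (Exc l')ᶜ := by
          ext w
          simp
        rw [h4, Finset.card_compl]
        rcases exc_cases l' with ⟨hE, -⟩ | ⟨w₁, w₂, hne, hE⟩
        · rw [hE, Finset.card_univ]
          omega
        · have hww : w₁ ≠ w₂ := fun h => hne (by rw [h])
          rw [hE, Finset.card_pair hww]
      have h5 : ((N : ℝ) + 1) ≤ R / Q + 1 := by
        rw [hN]
        have := Nat.floor_le (div_nonneg hR hQ.le)
        linarith
      calc _ ≤ (((N + 1) ^ (Fintype.card ι - 2) : ℕ) : ℝ) := by exact_mod_cast h2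
        _ = ((N : ℝ) + 1) ^ (Fintype.card ι - 2) := by push_cast; ring
        _ ≤ _ := pow_le_pow_left₀ (by positivity) h5 _
    calc _ ≤ ((∑ l' : ι → Fin 3, ((Fintype.piFinset fun w =>
        if w ∈ Exc l' then ({0} : Finset ℕ) else Finset.range (N + 1)).image
          fun n => (l', n)).card : ℕ) : ℝ) := by exact_mod_cast Finset.card_biUnion_le
      _ ≤ ∑ l' : ι → Fin 3, (R / Q + 1) ^ (Fintype.card ι - 2) := by
          push_cast
          exact Finset.sum_le_sum fun l' _ => h1 l'
      _ = _ := by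
          rw [Finset.sum_const, Finset.card_univ, nsmul_eq_mul]
          simp
  · intro X Y hX hY hg
    simp only [Prod.mk.injEq] at hg
    obtain ⟨h1, h2⟩ := hg
    refine tri_close hQ.le hm hd hX hY (l X) (hl X hX) ?_ ?_
    · rw [h1]
      exact hl Y hY
    · intro w hw
      have h3 := congrFun h2 w
      rw [← h1, if_neg hw, if_neg hw] at h3
      have hx : 0 ≤ X w (l X w) / Q := div_nonneg (hX.nonneg w _) hQ.le
      have hy : 0 ≤ Y w (l X w) / Q := div_nonneg (hY.nonneg w _) hQ.le
      have a1 := Nat.floor_le hx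
      have a2 := Nat.lt_floor_add_one (X w (l X w) / Q)
      have b1 := Nat.floor_le hy
      have b2 := Nat.lt_floor_add_one (Y w (l X w) / Q)
      rw [h3] at a1 a2
      have c1 : |X w (l X w) / Q - Y w (l X w) / Q| ≤ 1 := by
        rw [abs_le]
        constructor <;> linarith
      rw [← sub_div, abs_div, abs_of_pos hQ, div_le_one hQ] at c1
      exact c1

end Pool.Agent.W5h62.FS
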