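import Mathlib

/-!
# The number of units of bounded size
-/

set_option autoImplicit false

namespace Pool.Agent.W5h62.FS

open NumberField NumberField.Units NumberField.Units.dirichletUnitTheorem

variable (K : Type) [Field K] [NumberField K]

/-- at most `C L ^ r` units `u` have `|log |u|_v| ≤ L` for all infinite places `v` -/
theorem unit_box : ∃ C : ℝ, 0 < C ∧ ∀ L : ℝ, 1 ≤ L → ∀ s : Finset (𝓞 K)ˣ,
    (∀ u ∈ s, ∀ v : InfinitePlace K, |Real.log (v ((u : 𝓞 K) : K))| ≤ L) →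
    (s.card : ℝ) ≤ C * L ^ (rank K) := by
  classical
  obtain ⟨b, hb⟩ : ∃ b : Module.Basis (Fin (rank K)) ℝ (logSpace K),
      b = (basisUnitLattice K).ofZLatticeBasis ℝ (unitLattice K) := ⟨_, rfl⟩
  have hbi : ∀ i, b i = logEmbedding K (Additive.ofMul (fundSystem K i)) := by
    intro i
    rw [hb, Module.Basis.ofZLatticeBasis_apply, logEmbedding_fundSystem]
  obtain ⟨φ, hφ⟩ : ∃ φ : logSpace K →L[ℝ] (Fin (rank K) → ℝ),
      φ = LinearMap.toContinuousLinearMap (b.equivFun : logSpace K →ₗ[ℝ] (Fin (rank K) → ℝ)) :=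
    ⟨_, rfl⟩
  obtain ⟨A, hA⟩ : ∃ A : ℝ, A = 2 * (‖φ‖ + 1) := ⟨_, rfl⟩
  have hA0 : 0 < A := by rw [hA]; positivity
  choose g hg _ using fun x : (𝓞 K)ˣ => exist_unique_eq_mul_prod K x
  have hginj : Function.Injective g := by
    intro x y hxy
    rw [hg x, hg y, hxy]
  -- the exponents
  have hlog : ∀ x : (𝓞 K)ˣ, logEmbedding K (Additive.ofMul x) = ∑ i, ((g x).2 i : ℝ) • b i := by
    intro x
    have h1 : Additive.ofMul x = Additive.ofMul ((g x).1 : (𝓞 K)ˣ) +
        ∑ i, (g x).2 i • Additive.ofMul (fundSystem K i) := by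
      conv_lhs => rw [hg x]
      rw [ofMul_mul, ofMul_prod]
      simp only [ofMul_zpow]
    have h0 : logEmbedding K (Additive.ofMul ((g x).1 : (𝓞 K)ˣ)) = 0 :=
      logEmbedding_eq_zero_iff.2 (g x).1.2
    rw [h1, map_add, h0, zero_add, map_sum]
    refine Finset.sum_congr rfl fun i _ => ?_
    rw [map_zsmul, hbi]
    exact (Int.cast_smul_eq_zsmul ℝ _ _).symm
  have hexp : ∀ x : (𝓞 K)ˣ, ∀ i, φ (logEmbedding K (Additive.ofMul x)) i = ((g x).2 i : ℝ) := by
    intro x i
    rw [hlog x, hφ]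
    have h2 := b.equivFun_symm_apply (fun i => ((g x).2 i : ℝ))
    rw [← h2]
    simp [Finsupp.single_apply]
  have hft : Fintype (torsion K) := Fintype.ofFinite _
  obtain ⟨t, ht⟩ : ∃ t : ℕ, t = Fintype.card (torsion K) := ⟨_, rfl⟩
  refine ⟨(t : ℝ) * (2 * A + 1) ^ rank K, ?_, ?_⟩
  · have : 0 < t := by rw [ht]; exact Fintype.card_pos
    positivity
  intro L hL s hs
  have hM : ∀ u ∈ s, ∀ i, |((g u).2 i : ℝ)| ≤ A * L := by
    intro u hu i
    rw [← hexp u i]
    have h1 : ‖logEmbedding K (Additive.ofMul u)‖ ≤ 2 * L := by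
      rw [pi_norm_le_iff_of_nonneg (by linarith)]
      intro w
      rw [logEmbedding_component, Real.norm_eq_abs, abs_mul]
      have h3 : |((w : InfinitePlace K).mult : ℝ)| ≤ 2 := by
        rw [abs_of_nonneg (Nat.cast_nonneg _)]
        unfold InfinitePlace.mult
        split_ifs <;> norm_num
      exact mul_le_mul h3 (hs u hu w) (abs_nonneg _) (by norm_num)
    have h2 : ‖φ (logEmbedding K (Additive.ofMul u))‖ ≤ ‖φ‖ * (2 * L) :=
      (φ.le_opNorm _).trans (mul_le_mul_of_nonneg_left h1 (norm_nonneg _))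
    have h3 := (norm_le_pi_norm (φ (logEmbedding K (Additive.ofMul u))) i).trans h2
    rw [Real.norm_eq_abs] at h3
    refine h3.trans ?_
    rw [hA]
    nlinarith [norm_nonneg φ]
  obtain ⟨M, hMd⟩ : ∃ M : ℤ, M = ⌊A * L⌋ := ⟨_, rfl⟩
  have hM0 : 0 ≤ M := by rw [hMd]; exact Int.floor_nonneg.2 (by positivity)
  have hsub : s.image g ⊆ (Finset.univ : Finset (torsion K)) ×ˢ
      (Fintype.piFinset fun _ : Fin (rank K) => Finset.Icc (-M) M) := by
    intro y hy
    rw [Finset.mem_image] at hy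
    obtain ⟨u, hu, rfl⟩ := hy
    rw [Finset.mem_product]
    refine ⟨Finset.mem_univ _, ?_⟩
    rw [Fintype.mem_piFinset]
    intro i
    have h1 := abs_le.1 (hM u hu i)
    rw [Finset.mem_Icc]
    constructor
    · have : -(g u).2 i ≤ M := by
        rw [hMd, Int.le_floor]
        push_cast
        linarith [h1.1]
      linarith
    · rw [hMd, Int.le_floor]
      exact h1.2
  have hcard := Finset.card_le_card hsub
  rw [Finset.card_image_of_injective s hginj, Finset.card_product, Finset.card_univ, ← ht,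
    Fintype.card_piFinset_const] at hcard
  rw [Int.card_Icc] at hcard
  have hc2 : (((M + 1 - -M).toNat : ℕ) : ℝ) ≤ (2 * A + 1) * L := by
    have h1 : (((M + 1 - -M).toNat : ℕ) : ℤ) = 2 * M + 1 := by
      rw [Int.toNat_of_nonneg (by linarith)]
      ring
    have h2 : (((M + 1 - -M).toNat : ℕ) : ℝ) = 2 * (M : ℝ) + 1 := by exact_mod_cast h1
    have h3 : (M : ℝ) ≤ A * L := by rw [hMd]; exact Int.floor_le _
    rw [h2]
    nlinarith
  calc (s.card : ℝ) ≤ ((t * (M + 1 - -M).toNat ^ rank K : ℕ) : ℝ) := by exact_mod_cast hcard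
    _ = (t : ℝ) * (((M + 1 - -M).toNat : ℕ) : ℝ) ^ rank K := by push_cast; ring
    _ ≤ (t : ℝ) * ((2 * A + 1) * L) ^ rank K :=
        mul_le_mul_of_nonneg_left (pow_le_pow_left₀ (Nat.cast_nonneg _) hc2 _) (Nat.cast_nonneg _)
    _ = _ := by rw [mul_pow]; ring

end Pool.Agent.W5h62.FS
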