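import Pool.Agent.W5h62.FS.Setup
import Pool.Agent.W5h62.FS.Units
import Pool.Agent.W5h62.FS.Tripod

/-!
# Solutions of Fermat's equation of small height are rare: conclusion
-/

set_option autoImplicit false

namespace Pool.Agent.W5h62.FS

open NumberField IsDedekindDomain Height NumberField.Units

/-- the letter of the smallest of three numbers -/
lemma exists_letter {Q : ℝ} (hQ : 0 ≤ Q) {y : Fin 3 → ℝ} (h0 : y 0 ≤ Q + max (y 1) (y 2))
    (h1 : y 1 ≤ Q + max (y 2) (y 0)) (h2 : y 2 ≤ Q + max (y 0) (y 1)) :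
    ∃ l : Fin 3, ∀ j, j ≠ l → max (max (y 0) (y 1)) (y 2) - y j ≤ Q := by
  have key : ∀ (a b c : ℝ), a ≤ Q + max b c → b ≤ Q + max c a → c ≤ Q + max a b → c ≤ a → c ≤ b →
      max (max a b) c - a ≤ Q ∧ max (max a b) c - b ≤ Q := by
    intro a b c ha hb hc hca hcb
    rw [max_eq_left (hca.trans (le_max_left a b))]
    rw [max_eq_left hcb] at ha
    rw [max_eq_right hca] at hb
    constructor
    · rcases le_total a b with h | h
      · rw [max_eq_right h]
        linarith
      · rw [max_eq_left h]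
        linarith
    · rcases le_total a b with h | h
      · rw [max_eq_right h]
        linarith
      · rw [max_eq_left h]
        linarith
  rcases le_total (y 0) (y 1) with h01 | h01
  · rcases le_total (y 0) (y 2) with h02 | h02
    · -- y 0 smallest
      obtain ⟨k1, k2⟩ := key (y 1) (y 2) (y 0) h1 h2 h0 h01 h02
      refine ⟨0, fun j hj => ?_⟩
      have e : max (max (y 0) (y 1)) (y 2) = max (max (y 1) (y 2)) (y 0) := by
        rw [max_comm (y 0) (y 1), max_right_comm]
      fin_cases j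
      · exact absurd rfl hj
      · simp only [e]
        exact k1
      · simp only [e]
        exact k2
    · -- y 2 smallest
      obtain ⟨k1, k2⟩ := key (y 0) (y 1) (y 2) h0 h1 h2 h02 (h02.trans h01)
      refine ⟨2, fun j hj => ?_⟩
      fin_cases j
      · exact k1
      · exact k2
      · exact absurd rfl hj
  · rcases le_total (y 1) (y 2) with h12 | h12
    · -- y 1 smallest
      obtain ⟨k1, k2⟩ := key (y 2) (y 0) (y 1) h2 h0 h1 h12 h01
      refine ⟨1, fun j hj => ?_⟩
      have e : max (max (y 0) (y 1)) (y 2) = max (max (y 2) (y 0)) (y 1) := by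
        rw [max_right_comm, max_comm (y 0) (y 2)]
      fin_cases j
      · simp only [e]
        exact k2
      · exact absurd rfl hj
      · simp only [e]
        exact k1
    · obtain ⟨k1, k2⟩ := key (y 0) (y 1) (y 2) h0 h1 h2 (h12.trans h01) h12
      refine ⟨2, fun j hj => ?_⟩
      fin_cases j
      · exact k1
      · exact k2
      · exact absurd rfl hj

/-- the logarithms of `(ρ : σ : 1)` at `w` -/
noncomputable def Y {K : Type} [Field K] [NumberField K] (f : (𝓞 K)ˣ × (𝓞 K)ˣ)
    (w : InfinitePlace K) : Fin 3 → ℝ :=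
  ![Real.log (w ((f.1 : 𝓞 K) : K)), Real.log (w ((f.2 : 𝓞 K) : K)), 0]

/-- the distances from the maximum -/
noncomputable def XX {K : Type} [Field K] [NumberField K] (f : (𝓞 K)ˣ × (𝓞 K)ˣ)
    (w : InfinitePlace K) (j : Fin 3) : ℝ :=
  max (max (Y f w 0) (Y f w 1)) (Y f w 2) - Y f w j

lemma log_max {a b : ℝ} (ha : 0 < a) (hb : 0 < b) :
    Real.log (max a b) = max (Real.log a) (Real.log b) := by
  rcases le_total a b with h | h
  · rw [max_eq_right h, max_eq_right (Real.log_le_log ha h)]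
  · rw [max_eq_left h, max_eq_left (Real.log_le_log hb h)]

lemma unit_pos {K : Type} [Field K] [NumberField K] (u : (𝓞 K)ˣ) (w : InfinitePlace K) :
    0 < w ((u : 𝓞 K) : K) := InfinitePlace.pos_iff.2 (by exact_mod_cast u.ne_zero)

lemma tri_of {K : Type} [Field K] [NumberField K] {f : (𝓞 K)ˣ × (𝓞 K)ˣ} {p : ℕ} (hp : 0 < p)
    {B X : ℝ} (hpX : (p : ℝ) ≤ X)
    (h : ∀ w : InfinitePlace K, |Real.log (w ((f.1 : 𝓞 K) : K))| ≤ B ∧
        |Real.log (w ((f.2 : 𝓞 K) : K))| ≤ B ∧
        w ((f.1 : 𝓞 K) : K) ≤ 16 * p * max (w ((f.2 : 𝓞 K) : K)) 1 ∧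
        w ((f.2 : 𝓞 K) : K) ≤ 16 * p * max 1 (w ((f.1 : 𝓞 K) : K)) ∧
        1 ≤ 16 * p * max (w ((f.1 : 𝓞 K) : K)) (w ((f.2 : 𝓞 K) : K))) :
    Tri (fun w : InfinitePlace K => (w.mult : ℝ)) (Real.log (16 * X)) (2 * B) (XX f) := by
  have hp1 : (1 : ℝ) ≤ p := by exact_mod_cast hp
  have hX1 : 1 ≤ X := hp1.trans hpX
  have hQ : 0 ≤ Real.log (16 * X) := Real.log_nonneg (by linarith)
  have hlogQ : Real.log (16 * p) ≤ Real.log (16 * X) :=
    Real.log_le_log (by positivity) (by linarith)
  have hlog : ∀ {a b c : ℝ}, 0 < a → 0 < b → 0 < c → a ≤ 16 * p * max b c →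
      Real.log a ≤ Real.log (16 * X) + max (Real.log b) (Real.log c) := by
    intro a b c ha hb hc hab
    have h1 := Real.log_le_log ha hab
    rw [Real.log_mul (by positivity) (lt_max_of_lt_left hb).ne', log_max hb hc] at h1
    linarith
  constructor
  · intro w j
    unfold XX
    fin_cases j
    · exact sub_nonneg.2 (le_max_of_le_left (le_max_left _ _))
    · exact sub_nonneg.2 (le_max_of_le_left (le_max_right _ _))
    · exact sub_nonneg.2 (le_max_right _ _)
  · intro w j
    obtain ⟨h1, h2, -⟩ := h w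
    rw [abs_le] at h1 h2
    have hB : 0 ≤ B := by linarith
    have hY : ∀ i, -B ≤ Y f w i ∧ Y f w i ≤ B := by
      intro i
      unfold Y
      fin_cases i
      · exact h1
      · exact h2
      · exact ⟨by simpa using hB, by simpa using hB⟩
    unfold XX
    have hm : max (max (Y f w 0) (Y f w 1)) (Y f w 2) ≤ B :=
      max_le (max_le (hY 0).2 (hY 1).2) (hY 2).2
    linarith [(hY j).1]
  · intro w
    obtain ⟨-, -, h3, h4, h5⟩ := h w
    have p1 := unit_pos f.1 w
    have p2 := unit_pos f.2 w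
    have g3 := hlog p1 p2 one_pos h3
    have g4 := hlog p2 one_pos p1 h4
    have g5 := hlog one_pos p1 p2 h5
    rw [Real.log_one] at g3 g4 g5
    exact exists_letter (y := Y f w) hQ g3 g4 g5
  · have hsum : ∀ j, ∑ w : InfinitePlace K, (w.mult : ℝ) * Y f w j = 0 := by
      intro j
      unfold Y
      fin_cases j
      · exact sum_mult_mul_log f.1
      · exact sum_mult_mul_log f.2
      · simp
    have key : ∀ j, ∑ w : InfinitePlace K, (w.mult : ℝ) * XX f w j =
        ∑ w : InfinitePlace K, (w.mult : ℝ) * max (max (Y f w 0) (Y f w 1)) (Y f w 2) := by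
      intro j
      unfold XX
      simp only [mul_sub, Finset.sum_sub_distrib]
      rw [hsum j, sub_zero]
    intro j j'
    rw [key, key]

lemma Y_diff {K : Type} [Field K] [NumberField K] (f g : (𝓞 K)ˣ × (𝓞 K)ˣ) (w : InfinitePlace K)
    {D : ℝ} (h : ∀ j, |XX f w j - XX g w j| ≤ D) (j : Fin 3) : |Y f w j - Y g w j| ≤ 2 * D := by
  have e : Y f w j - Y g w j = (XX f w 2 - XX g w 2) - (XX f w j - XX g w j) := by
    unfold XX
    have h2 : Y f w 2 = 0 := rfl
    have h3 : Y g w 2 = 0 := rfl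
    rw [h2, h3]
    ring
  rw [e]
  refine (abs_sub _ _).trans ?_
  linarith [h 2, h j]

theorem main (K : Type) [Field K] [NumberField K] : ∃ C : ℝ, 0 < C ∧
    (∀ L : ℝ, 1 ≤ L → ∀ s : Finset (ℕ × K × K),
      (∀ t ∈ s, t.1.Prime ∧ C * L ≤ t.1 ∧ Small K L t.1 t.2.1 t.2.2) →
      (s.card : ℝ) ≤ C * L ^ (2 * rank K)) ∧
    (∀ L : ℝ, 1 ≤ L → ∀ X : ℝ, 2 ≤ X → ∀ s : Finset (ℕ × K × K),
      (∀ t ∈ s, t.1.Prime ∧ C * L ≤ t.1 ∧ (t.1 : ℝ) ≤ X ∧ Small K L t.1 t.2.1 t.2.2) →
      (s.card : ℝ) ≤ C * L ^ (rank K - 1) * Real.log X ^ (2 * rank K)) := by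
  classical
  obtain ⟨C1, hC1, hbox⟩ := unit_box K
  obtain ⟨A, hA0, hset⟩ := setup K
  obtain ⟨d, hd⟩ : ∃ d : ℕ, d = Module.finrank ℚ K := ⟨_, rfl⟩
  have hd0 : 0 < d := by rw [hd]; exact Module.finrank_pos
  have hdR : (1 : ℝ) ≤ d := by exact_mod_cast hd0
  obtain ⟨r, hr⟩ : ∃ r : ℕ, r = rank K := ⟨_, rfl⟩
  have hcardr : Fintype.card (InfinitePlace K) - 1 = r := by rw [hr]; rfl
  rw [← hr] at hbox ⊢
  rw [← hd] at hset
  obtain ⟨E, hE⟩ : ∃ E : ℝ, E = (C1 * ((d : ℝ) + 1) ^ r) ^ 2 := ⟨_, rfl⟩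
  obtain ⟨E', hE'⟩ : ∃ E' : ℝ, E' = 3 ^ Fintype.card (InfinitePlace K) *
    (2 * ((d : ℝ) + 1) + 1) ^ (r - 1) * (C1 * (4 * d * 5) ^ r) ^ 2 := ⟨_, rfl⟩
  have hE0 : 0 < E := by rw [hE]; positivity
  have hE0' : 0 < E' := by rw [hE']; positivity
  refine ⟨A + E + E', by positivity, ?_, ?_⟩
  · intro L hL s hs
    obtain ⟨f, hinj, hf⟩ := hset L hL s fun t ht =>
      ⟨(hs t ht).1, le_trans (by nlinarith) (hs t ht).2.1, (hs t ht).2.2⟩
    have hB1 : 1 ≤ ((d : ℝ) + 1) * L := by nlinarith
    have h1 : s.image f ⊆ (s.image fun p => (f p).1) ×ˢ (s.image fun p => (f p).2) := by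
      intro y hy
      rw [Finset.mem_image] at hy
      obtain ⟨p, hp, rfl⟩ := hy
      rw [Finset.mem_product]
      exact ⟨Finset.mem_image_of_mem _ hp, Finset.mem_image_of_mem _ hp⟩
    have h2 := Finset.card_le_card h1
    rw [Finset.card_product, Finset.card_image_of_injOn hinj] at h2
    have h3 := hbox _ hB1 (s.image fun p => (f p).1) (by
      intro u hu v
      rw [Finset.mem_image] at hu
      obtain ⟨p, hp, rfl⟩ := hu
      exact (hf p hp v).1)
    have h4 := hbox _ hB1 (s.image fun p => (f p).2) (by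
      intro u hu v
      rw [Finset.mem_image] at hu
      obtain ⟨p, hp, rfl⟩ := hu
      exact (hf p hp v).2.1)
    calc (s.card : ℝ) ≤
        (((s.image fun p => (f p).1).card * (s.image fun p => (f p).2).card : ℕ) : ℝ) := by
          exact_mod_cast h2
      _ = ((s.image fun p => (f p).1).card : ℝ) * ((s.image fun p => (f p).2).card : ℝ) := by
          push_cast; ring
      _ ≤ (C1 * (((d : ℝ) + 1) * L) ^ r) * (C1 * (((d : ℝ) + 1) * L) ^ r) :=
          mul_le_mul h3 h4 (Nat.cast_nonneg _) (by positivity)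
      _ = E * L ^ (2 * r) := by
          rw [hE, mul_pow ((d : ℝ) + 1) L r]
          ring
      _ ≤ (A + E + E') * L ^ (2 * r) :=
          mul_le_mul_of_nonneg_right (by linarith) (by positivity)
  · intro L hL X hX s hs
    obtain ⟨f, hinj, hf⟩ := hset L hL s fun t ht =>
      ⟨(hs t ht).1, le_trans (by nlinarith) (hs t ht).2.1, (hs t ht).2.2.2⟩
    obtain ⟨Q, hQ⟩ : ∃ Q : ℝ, Q = Real.log (16 * X) := ⟨_, rfl⟩
    have hlogX : 0.69 < Real.log X := by
      have h1 := Real.log_le_log (by norm_num) hX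
      have := Real.log_two_gt_d9
      linarith
    have hQX : Q ≤ 5 * Real.log X := by
      rw [hQ, Real.log_mul (by norm_num) (by linarith), show (16 : ℝ) = 2 ^ 4 by norm_num,
        Real.log_pow]
      have h1 := Real.log_le_log (by norm_num) hX
      push_cast
      linarith
    have hQ1 : 1 ≤ Q := by
      rw [hQ, Real.log_mul (by norm_num) (by linarith), show (16 : ℝ) = 2 ^ 4 by norm_num,
        Real.log_pow]
      have := Real.log_two_gt_d9
      push_cast
      linarith
    have hmult : ∀ w : InfinitePlace K, (1 : ℝ) ≤ (w.mult : ℝ) := fun w => by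
      have h1 : 0 < w.mult := Nat.pos_of_ne_zero InfinitePlace.mult_ne_zero
      exact_mod_cast h1
    have hsumm : ∑ w : InfinitePlace K, (w.mult : ℝ) = d := by
      rw [hd, ← InfinitePlace.sum_mult_eq (K := K)]
      push_cast
      rfl
    obtain ⟨g, F, hgF, hFc, hclose⟩ := tri_classes (ι := InfinitePlace K)
      (m := fun w => (w.mult : ℝ)) (Q := Q) (R := 2 * (((d : ℝ) + 1) * L)) (d := d)
      (by linarith) (by positivity) hmult hsumm
    have htri : ∀ t ∈ s, Tri (fun w : InfinitePlace K => (w.mult : ℝ)) Q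
        (2 * (((d : ℝ) + 1) * L)) (XX (f t)) := fun t ht => by
      rw [hQ]
      exact tri_of (hs t ht).1.pos (hs t ht).2.2.1 (hf t ht)
    have hD1 : 1 ≤ 4 * d * Q := by nlinarith
    -- fibres
    have hfib : ∀ c ∈ F, (((s.filter fun t => g (XX (f t)) = c).card : ℕ) : ℝ) ≤
        (C1 * (4 * d * Q) ^ r) ^ 2 := by
      intro c _
      rcases (s.filter fun t => g (XX (f t)) = c).eq_empty_or_nonempty with h0 | ⟨t0, ht0⟩
      · rw [h0]
        simp only [Finset.card_empty, Nat.cast_zero]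
        positivity
      obtain ⟨s', hs'⟩ : ∃ s' : Finset (ℕ × K × K), s' = s.filter fun t => g (XX (f t)) = c :=
        ⟨_, rfl⟩
      rw [← hs'] at ht0 ⊢
      have hmem : ∀ t ∈ s', t ∈ s ∧ g (XX (f t)) = c := fun t ht => by
        rw [hs', Finset.mem_filter] at ht
        exact ht
      have hdiff : ∀ t ∈ s', ∀ w : InfinitePlace K, ∀ j, |Y (f t) w j - Y (f t0) w j| ≤
          4 * d * Q := by
        intro t ht w j
        have h1 := hclose _ _ (htri t (hmem t ht).1) (htri t0 (hmem t0 ht0).1)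
          ((hmem t ht).2.trans (hmem t0 ht0).2.symm) w
        have h2 := Y_diff (f t) (f t0) w h1 j
        linarith
      have hlogdiv : ∀ (u v : (𝓞 K)ˣ) (w : InfinitePlace K),
          Real.log (w (((u * v⁻¹ : (𝓞 K)ˣ) : 𝓞 K) : K)) =
            Real.log (w ((u : 𝓞 K) : K)) - Real.log (w ((v : 𝓞 K) : K)) := by
        intro u v w
        have h1 : (((u * v⁻¹ : (𝓞 K)ˣ) : 𝓞 K) : K) * ((v : 𝓞 K) : K) = ((u : 𝓞 K) : K) := by
          rw [← map_mul, ← Units.val_mul, inv_mul_cancel_right]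
        rw [← h1, map_mul, Real.log_mul (unit_pos _ w).ne' (unit_pos _ w).ne']
        ring
      have h1 : s'.image (fun t => ((f t).1 * (f t0).1⁻¹, (f t).2 * (f t0).2⁻¹)) ⊆
          (s'.image fun t => (f t).1 * (f t0).1⁻¹) ×ˢ (s'.image fun t => (f t).2 * (f t0).2⁻¹) := by
        intro y hy
        rw [Finset.mem_image] at hy
        obtain ⟨p, hp, rfl⟩ := hy
        rw [Finset.mem_product]
        exact ⟨Finset.mem_image.2 ⟨p, hp, rfl⟩, Finset.mem_image.2 ⟨p, hp, rfl⟩⟩
      have hinj' : Set.InjOn (fun t => ((f t).1 * (f t0).1⁻¹, (f t).2 * (f t0).2⁻¹)) s' := by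
        intro t ht t' ht' h
        simp only [Prod.mk.injEq, mul_left_inj] at h
        exact hinj (hmem t ht).1 (hmem t' ht').1 (Prod.ext h.1 h.2)
      have h2 := Finset.card_le_card h1
      rw [Finset.card_product, Finset.card_image_of_injOn hinj'] at h2
      have h3 := hbox _ hD1 (s'.image fun t => (f t).1 * (f t0).1⁻¹) (by
        intro u hu v
        rw [Finset.mem_image] at hu
        obtain ⟨p, hp, rfl⟩ := hu
        rw [hlogdiv]
        exact hdiff p hp v 0)
      have h4 := hbox _ hD1 (s'.image fun t => (f t).2 * (f t0).2⁻¹) (by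
        intro u hu v
        rw [Finset.mem_image] at hu
        obtain ⟨p, hp, rfl⟩ := hu
        rw [hlogdiv]
        exact hdiff p hp v 1)
      calc (s'.card : ℝ) ≤ (((s'.image fun t => (f t).1 * (f t0).1⁻¹).card *
            (s'.image fun t => (f t).2 * (f t0).2⁻¹).card : ℕ) : ℝ) := by exact_mod_cast h2
        _ = ((s'.image fun t => (f t).1 * (f t0).1⁻¹).card : ℝ) *
            ((s'.image fun t => (f t).2 * (f t0).2⁻¹).card : ℝ) := by push_cast; ring
        _ ≤ (C1 * (4 * d * Q) ^ r) * (C1 * (4 * d * Q) ^ r) :=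
            mul_le_mul h3 h4 (Nat.cast_nonneg _) (by positivity)
        _ = _ := by ring
    have hcard := Finset.card_eq_sum_card_fiberwise (s := s) (t := F) (f := fun t => g (XX (f t)))
      (fun t ht => hgF _ (htri t ht))
    have hr2 : Fintype.card (InfinitePlace K) - 2 = r - 1 := by omega
    have hLQ : 2 * (((d : ℝ) + 1) * L) / Q + 1 ≤ (2 * ((d : ℝ) + 1) + 1) * L := by
      have h1 : 2 * (((d : ℝ) + 1) * L) / Q ≤ 2 * (((d : ℝ) + 1) * L) :=
        div_le_self (by positivity) hQ1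
      linarith
    have hL0 : 0 < L := by linarith
    calc (s.card : ℝ) = ∑ c ∈ F, (((s.filter fun t => g (XX (f t)) = c).card : ℕ) : ℝ) := by
          rw [hcard]
          push_cast
          rfl
      _ ≤ ∑ _c ∈ F, (C1 * (4 * d * Q) ^ r) ^ 2 := Finset.sum_le_sum hfib
      _ = (F.card : ℝ) * (C1 * (4 * d * Q) ^ r) ^ 2 := by
          rw [Finset.sum_const, nsmul_eq_mul]
      _ ≤ (3 ^ Fintype.card (InfinitePlace K) *
            (2 * (((d : ℝ) + 1) * L) / Q + 1) ^ (Fintype.card (InfinitePlace K) - 2)) *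
            (C1 * (4 * d * Q) ^ r) ^ 2 := mul_le_mul_of_nonneg_right hFc (by positivity)
      _ ≤ (3 ^ Fintype.card (InfinitePlace K) * ((2 * ((d : ℝ) + 1) + 1) * L) ^ (r - 1)) *
            (C1 * (4 * d * (5 * Real.log X)) ^ r) ^ 2 := by
          rw [hr2]
          refine mul_le_mul ?_ ?_ (by positivity) (by positivity)
          · refine mul_le_mul_of_nonneg_left ?_ (by positivity)
            exact pow_le_pow_left₀ (by positivity) hLQ _
          · refine pow_le_pow_left₀ (by positivity) ?_ 2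
            refine mul_le_mul_of_nonneg_left ?_ hC1.le
            refine pow_le_pow_left₀ (by positivity) ?_ r
            exact mul_le_mul_of_nonneg_left hQX (by positivity)
      _ = E' * L ^ (r - 1) * Real.log X ^ (2 * r) := by
          have e1 : (4 * (d : ℝ) * (5 * Real.log X)) ^ r = (4 * d * 5) ^ r * Real.log X ^ r := by
            rw [← mul_pow]
            congr 1
            ring
          rw [hE', e1, mul_pow (2 * ((d : ℝ) + 1) + 1) L (r - 1)]
          ring
      _ ≤ (A + E + E') * L ^ (r - 1) * Real.log X ^ (2 * r) := by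
          have h0 : 0 ≤ L ^ (r - 1) * Real.log X ^ (2 * r) := by positivity
          nlinarith

end Pool.Agent.W5h62.FS
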