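import Pool.Agent.Y556.TW.UE
import Pool.Agent.W7.FH.Gm

/-!
# Roots of unity with sum zero
-/

set_option autoImplicit false

namespace Pool.Agent.W5h62.FS

lemma omega_of_norm {z : ℂ} (h1 : ‖z‖ = 1) (h2 : ‖1 + z‖ = 1) : z ^ 2 + z + 1 = 0 := by
  have e1 : z.re * z.re + z.im * z.im = 1 := by
    have := Complex.normSq_eq_norm_sq z
    rw [h1, Complex.normSq_apply] at this
    linarith
  have e2 : (1 + z.re) * (1 + z.re) + z.im * z.im = 1 := by
    have := Complex.normSq_eq_norm_sq (1 + z)
    rw [h2, Complex.normSq_apply] at this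
    simp only [Complex.add_re, Complex.one_re, Complex.add_im, Complex.one_im, zero_add] at this
    linarith
  have e3 : z.re = -1 / 2 := by linarith
  have e4 : z.im * z.im = 3 / 4 := by rw [e3] at e1; linarith
  apply Complex.ext
  · rw [pow_two]
    simp only [Complex.add_re, Complex.mul_re, Complex.one_re, Complex.zero_re]
    rw [e3]
    linarith
  · rw [pow_two]
    simp only [Complex.add_im, Complex.mul_im, Complex.one_im, Complex.zero_im]
    rw [e3]
    ring

end Pool.Agent.W5h62.FS
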