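import Pool.Agent.W5h62.FS.Units
import Pool.Agent.W5h62.FS.Sum

/-!
# Solutions of Fermat's equation of small height are rare
-/

set_option autoImplicit false

namespace Pool.Agent.W5h62.FS

open NumberField IsDedekindDomain Height
open Pool.Agent.W7.FH

variable {K : Type} [Field K] [NumberField K]

/-- the archimedean maximum -/
noncomputable def Mi (w : InfinitePlace K) (a b c : K) : ℝ := max (max (w a) (w b)) (w c)

lemma small_units {p : ℕ} (hp : p.Prime) (h5 : 5 ≤ p)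
    (hpd : 4 * Module.finrank ℚ K ^ 2 ≤ p)
    {a b c : K} (ha : a ≠ 0) (hb : b ≠ 0) (hc : c ≠ 0) (h : a ^ p + b ^ p + c ^ p = 0)
    (hmain : (2 : ℝ) ^ Module.finrank ℚ K * mulHeight ![a, b, c] < 2 ^ p) (v : FinitePlace K) :
    v (a + b) = mx v a b c ∧ v (b + c) = mx v a b c ∧ v (c + a) = mx v a b c := by
  have hdpos : 0 < Module.finrank ℚ K := Module.finrank_pos
  obtain ⟨d, hdd⟩ : ∃ d, d = Module.finrank ℚ K := ⟨_, rfl⟩
  have hdd2 : d + 1 < p := by
    rw [← hdd] at hpd hdpos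
    nlinarith
  have hm : ∀ q : ℕ, q.Prime → q ∣ p → Module.finrank ℚ K + 1 < q := by
    intro q hq hqp
    rw [(Nat.prime_dvd_prime_iff_eq hq hp).mp hqp, ← hdd]
    exact hdd2
  exact units_of_small (by omega) hm ha hb hc h (Q := (2 : ℝ) ^ p) (by positivity)
    (fun w => by
      apply pow_le_pow_left₀ (by norm_num)
      have := one_lt_nrm w
      exact_mod_cast this) (by
      rw [hp.minFac_eq]
      have h2d : 2 * Module.finrank ℚ K ≤ p := by
        rw [← hdd] at hpd hdpos ⊢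
        nlinarith
      have := pow_bound (d := Module.finrank ℚ K) (l := p) (n := p) (by omega) h2d (by omega)
        dvd_rfl
      exact_mod_cast this) hmain v

/-- ratios of elements of maximal absolute value at all finite places -/
lemma ratio_le {a b c x y : K} (ha : a ≠ 0) (hx : x ≠ 0) (hy : y ≠ 0)
    (hxi : ∀ w : InfinitePlace K, w x ≤ 2 * Mi w a b c)
    (hyi : ∀ w : InfinitePlace K, w y ≤ 2 * Mi w a b c)
    (hxv : ∀ v : FinitePlace K, v x = mx v a b c) (hyv : ∀ v : FinitePlace K, v y = mx v a b c)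
    (w : InfinitePlace K) :
    w (x / y) ≤ 2 ^ Module.finrank ℚ K * mulHeight ![a, b, c] := by
  classical
  have hx0 : ![a, b, c] ≠ 0 := fun h0 => ha (congrFun h0 0)
  have h1 := NumberField.mulHeight_eq (K := K) hx0
  have e1 : ∏ᶠ v : FinitePlace K, ⨆ i : Fin 3, v (![a, b, c] i) = ∏ᶠ v : FinitePlace K, v y := by
    refine finprod_congr fun v => ?_
    rw [iSup_three v a b c, hyv]
    rfl
  have hpf := prod_abs_eq_one hy
  obtain ⟨F, hF⟩ : ∃ F : ℝ, F = ∏ᶠ v : FinitePlace K, v y := ⟨_, rfl⟩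
  rw [← hF] at hpf e1
  have hyw : ∀ u : InfinitePlace K, 0 < u y := fun u => InfinitePlace.pos_iff.2 hy
  have hPy : 0 < ∏ u : InfinitePlace K, u y ^ u.mult := Finset.prod_pos fun u _ => pow_pos (hyw u) _
  have hF2 : F = (∏ u : InfinitePlace K, u y ^ u.mult)⁻¹ := by
    rw [eq_comm, inv_eq_iff_eq_inv, ← eq_inv_of_mul_eq_one_left hpf]
  have h2 : (2 : ℝ) ^ Module.finrank ℚ K * mulHeight ![a, b, c] =
      ∏ u : InfinitePlace K, (2 * Mi u a b c / u y) ^ u.mult := by
    rw [h1, e1, hF2]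
    have h3 : (2 : ℝ) ^ Module.finrank ℚ K = ∏ w : InfinitePlace K, (2 : ℝ) ^ w.mult := by
      rw [Finset.prod_pow_eq_pow_sum, InfinitePlace.sum_mult_eq]
    rw [h3, ← mul_assoc, ← Finset.prod_mul_distrib, ← Finset.prod_inv_distrib,
      ← Finset.prod_mul_distrib]
    refine Finset.prod_congr rfl fun u _ => ?_
    rw [iSup_three u a b c, div_pow, mul_pow]
    rfl
  rw [h2]
  have hone : ∀ u : InfinitePlace K, 1 ≤ 2 * Mi u a b c / u y := fun u => by
    rw [one_le_div (hyw u)]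
    exact hyi u
  have h4 : (2 * Mi w a b c / w y) ^ w.mult ≤
      ∏ u : InfinitePlace K, (2 * Mi u a b c / u y) ^ u.mult := by
    rw [← Finset.mul_prod_erase Finset.univ _ (Finset.mem_univ w)]
    refine le_mul_of_one_le_right (by have := hone w; positivity) ?_
    calc (1 : ℝ) = ∏ _u ∈ Finset.univ.erase w, (1 : ℝ) := by simp
      _ ≤ _ := Finset.prod_le_prod (fun _ _ => zero_le_one) fun u _ => one_le_pow₀ (hone u)
  refine le_trans ?_ h4
  refine le_trans ?_ (le_self_pow₀ (hone w) (InfinitePlace.mult_ne_zero))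
  rw [map_div₀]
  gcongr
  exact hxi w

lemma exists_unit (z : K) (hz : z ≠ 0) (h : ∀ v : FinitePlace K, v z = 1) :
    ∃ u : (𝓞 K)ˣ, ((u : 𝓞 K) : K) = z := by
  have h1 : IsIntegral ℤ z := isIntegral_of_le z fun v => (h v).le
  have h2 : IsIntegral ℤ z⁻¹ := isIntegral_of_le z⁻¹ fun v => by rw [map_inv₀, h v, inv_one]
  refine ⟨⟨⟨z, h1⟩, ⟨z⁻¹, h2⟩, ?_, ?_⟩, rfl⟩
  · apply RingOfIntegers.ext
    change z * z⁻¹ = 1
    exact mul_inv_cancel₀ hz
  · apply RingOfIntegers.ext
    change z⁻¹ * z = 1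
    exact inv_mul_cancel₀ hz

end Pool.Agent.W5h62.FS
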