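import Pool.Agent.W5h62.FS.Uniq

/-!
# Small solutions of Fermat's equation are rare: the units of a small solution
-/

set_option autoImplicit false

namespace Pool.Agent.W5h62.FS

open NumberField IsDedekindDomain Height NumberField.Units
open Pool.Agent.W7.FH

variable {K : Type} [Field K] [NumberField K]

/-- a small solution gives two units `ρ`, `σ` of bounded size -/
lemma two_units {p : ℕ} (hp : p.Prime) (h5 : 5 ≤ p) (hpd : 4 * Module.finrank ℚ K ^ 2 ≤ p)
    {a b c : K} (ha : a ≠ 0) (hb : b ≠ 0) (hc : c ≠ 0) (h : a ^ p + b ^ p + c ^ p = 0)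
    (hmain : (2 : ℝ) ^ Module.finrank ℚ K * mulHeight ![a, b, c] < 2 ^ p) :
    ∃ ρ σ : (𝓞 K)ˣ, c + a ≠ 0 ∧ ((ρ : 𝓞 K) : K) = (a + b) / (c + a) ∧
      ((σ : 𝓞 K) : K) = (b + c) / (c + a) ∧
      ∀ w : InfinitePlace K,
        |Real.log (w ((ρ : 𝓞 K) : K))| ≤
          Real.log (2 ^ Module.finrank ℚ K * mulHeight ![a, b, c]) ∧
        |Real.log (w ((σ : 𝓞 K) : K))| ≤
          Real.log (2 ^ Module.finrank ℚ K * mulHeight ![a, b, c]) := by
  have hu := small_units hp h5 hpd ha hb hc h hmain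
  have hodd : Odd p := hp.odd_of_ne_two (by omega)
  have hab : a + b ≠ 0 := add_ne_zero_of_fermat hodd hc h
  have hbc : b + c ≠ 0 := add_ne_zero_of_fermat hodd ha (by linear_combination h)
  have hca : c + a ≠ 0 := add_ne_zero_of_fermat hodd hb (by linear_combination h)
  have hmx : ∀ v : FinitePlace K, 0 < mx v a b c := fun v => by
    rw [← (hu v).2.2]
    exact FinitePlace.pos_iff.mpr hca
  obtain ⟨ρ, hρ⟩ := exists_unit ((a + b) / (c + a)) (div_ne_zero hab hca) fun v => by
    rw [map_div₀, (hu v).1, (hu v).2.2, div_self (hmx v).ne']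
  obtain ⟨σ, hσ⟩ := exists_unit ((b + c) / (c + a)) (div_ne_zero hbc hca) fun v => by
    rw [map_div₀, (hu v).2.1, (hu v).2.2, div_self (hmx v).ne']
  have ma : ∀ w : InfinitePlace K, w a ≤ Mi w a b c := fun w =>
    le_max_of_le_left (le_max_left _ _)
  have mb : ∀ w : InfinitePlace K, w b ≤ Mi w a b c := fun w =>
    le_max_of_le_left (le_max_right _ _)
  have mc : ∀ w : InfinitePlace K, w c ≤ Mi w a b c := fun w => le_max_right _ _
  have iab : ∀ w : InfinitePlace K, w (a + b) ≤ 2 * Mi w a b c := fun w => by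
    have h1 := ma w
    have h2 := mb w
    have h3 : w (a + b) ≤ w a + w b := w.1.add_le a b
    linarith
  have ibc : ∀ w : InfinitePlace K, w (b + c) ≤ 2 * Mi w a b c := fun w => by
    have h1 := mb w
    have h2 := mc w
    have h3 : w (b + c) ≤ w b + w c := w.1.add_le b c
    linarith
  have ica : ∀ w : InfinitePlace K, w (c + a) ≤ 2 * Mi w a b c := fun w => by
    have h1 := mc w
    have h2 := ma w
    have h3 : w (c + a) ≤ w c + w a := w.1.add_le c a
    linarith
  have g1 := ratio_le ha hab hca iab ica (fun v => (hu v).1) (fun v => (hu v).2.2)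
  have g1' := ratio_le ha hca hab ica iab (fun v => (hu v).2.2) (fun v => (hu v).1)
  have g2 := ratio_le ha hbc hca ibc ica (fun v => (hu v).2.1) (fun v => (hu v).2.2)
  have g2' := ratio_le ha hca hbc ica ibc (fun v => (hu v).2.2) (fun v => (hu v).2.1)
  obtain ⟨B, hB⟩ : ∃ B : ℝ, B = 2 ^ Module.finrank ℚ K * mulHeight ![a, b, c] := ⟨_, rfl⟩
  rw [← hB] at g1 g1' g2 g2' ⊢
  have hlog : ∀ (x y : K) (w : InfinitePlace K), x ≠ 0 → y ≠ 0 → w (x / y) ≤ B → w (y / x) ≤ B →
      |Real.log (w (x / y))| ≤ Real.log B := by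
    intro x y w hx hy h1 h2
    have hpos : 0 < w (x / y) := InfinitePlace.pos_iff.2 (div_ne_zero hx hy)
    have hpos' : 0 < w (y / x) := InfinitePlace.pos_iff.2 (div_ne_zero hy hx)
    rw [abs_le]
    constructor
    · have h3 : w (x / y) = (w (y / x))⁻¹ := by rw [← map_inv₀, inv_div]
      rw [h3, Real.log_inv]
      exact neg_le_neg (Real.log_le_log hpos' h2)
    · exact Real.log_le_log hpos h1
  refine ⟨ρ, σ, hca, hρ, hσ, fun w => ⟨?_, ?_⟩⟩
  · rw [hρ]
    exact hlog _ _ w hab hca (g1 w) (g1' w)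
  · rw [hσ]
    exact hlog _ _ w hbc hca (g2 w) (g2' w)

end Pool.Agent.W5h62.FS
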