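import Mathlib

/-!
# Sums of two coordinates of a complex point of the Fermat curve
-/

set_option autoImplicit false

namespace Pool.Agent.W5h62.FS

lemma norm_pow_sub_one_le (t : ℂ) (n : ℕ) : ‖(1 + t) ^ n - 1‖ ≤ (1 + ‖t‖) ^ n - 1 := by
  induction n with
  | zero => simp
  | succ n ih =>
    have e : (1 + t) ^ (n + 1) - 1 = (1 + t) ^ n * t + ((1 + t) ^ n - 1) := by ring
    have h1 : ‖(1 + t) ^ n * t‖ ≤ (1 + ‖t‖) ^ n * ‖t‖ := by
      rw [norm_mul, norm_pow]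
      refine mul_le_mul_of_nonneg_right (pow_le_pow_left₀ (norm_nonneg _) ?_ n) (norm_nonneg _)
      calc ‖1 + t‖ ≤ ‖(1 : ℂ)‖ + ‖t‖ := norm_add_le _ _
        _ = 1 + ‖t‖ := by rw [norm_one]
    rw [e]
    calc ‖(1 + t) ^ n * t + ((1 + t) ^ n - 1)‖ ≤ ‖(1 + t) ^ n * t‖ + ‖(1 + t) ^ n - 1‖ :=
          norm_add_le _ _
      _ ≤ (1 + ‖t‖) ^ n * ‖t‖ + ((1 + ‖t‖) ^ n - 1) := add_le_add h1 ih
      _ = (1 + ‖t‖) ^ (n + 1) - 1 := by ring

lemma norm_pow_sub_one_le' {t : ℂ} {n : ℕ} (hn : 0 < n) (ht : ‖t‖ ≤ 1 / (4 * n)) :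
    ‖(1 + t) ^ n - 1‖ ≤ 0.3 := by
  have hn' : (0 : ℝ) < n := by exact_mod_cast hn
  refine (norm_pow_sub_one_le t n).trans ?_
  have h1 : (1 + ‖t‖) ^ n ≤ Real.exp (1 / 4) := by
    calc (1 + ‖t‖) ^ n ≤ (Real.exp (1 / (4 * n))) ^ n := by
          refine pow_le_pow_left₀ (by positivity) ?_ n
          have := Real.add_one_le_exp (1 / (4 * (n : ℝ)))
          linarith
      _ = Real.exp (1 / 4) := by
          rw [← Real.exp_nat_mul]
          congr 1
          field_simp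
  have h2 : Real.exp (1 / 4) ≤ 1.3 := by
    refine le_of_pow_le_pow_left₀ (n := 4) (by norm_num) (by norm_num) ?_
    rw [← Real.exp_nat_mul]
    have h3 : ((4 : ℕ) : ℝ) * (1 / 4) = 1 := by norm_num
    rw [h3]
    have h4 := Real.exp_one_lt_d9
    norm_num at h4 ⊢
    linarith
  linarith

/-- the two largest of `|a + b|`, `|b + c|`, `|c + a|` differ at most by the factor `16 p` -/
lemma near {p : ℕ} (hp : Odd p) {a b c : ℂ} (h : a ^ p + b ^ p + c ^ p = 0) :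
    ‖a + b‖ ≤ 16 * p * max ‖b + c‖ ‖c + a‖ := by
  by_contra hlt
  rw [not_le] at hlt
  have hp0 : 0 < p := hp.pos
  have hp1 : (1 : ℝ) ≤ p := by exact_mod_cast hp0
  obtain ⟨M, hM⟩ : ∃ M : ℝ, M = ‖a + b‖ := ⟨_, rfl⟩
  rw [← hM] at hlt
  have h1 : 16 * p * ‖b + c‖ < M :=
    lt_of_le_of_lt (mul_le_mul_of_nonneg_left (le_max_left _ _) (by positivity)) hlt
  have h2 : 16 * p * ‖c + a‖ < M :=
    lt_of_le_of_lt (mul_le_mul_of_nonneg_left (le_max_right _ _) (by positivity)) hlt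
  have h1' : 16 * ‖b + c‖ ≤ M := by nlinarith [norm_nonneg (b + c)]
  have h2' : 16 * ‖c + a‖ ≤ M := by nlinarith [norm_nonneg (c + a)]
  have hMpos : 0 < M := by nlinarith [norm_nonneg (b + c)]
  have hc : M / 4 ≤ ‖c‖ := by
    have e : a + b = (b + c) + (c + a) - 2 * c := by ring
    have h3 : M ≤ ‖b + c‖ + ‖c + a‖ + 2 * ‖c‖ := by
      rw [hM, e]
      calc ‖b + c + (c + a) - 2 * c‖ ≤ ‖b + c + (c + a)‖ + ‖2 * c‖ := norm_sub_le _ _
        _ ≤ ‖b + c‖ + ‖c + a‖ + 2 * ‖c‖ := by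
          have := norm_add_le (b + c) (c + a)
          rw [norm_mul]
          simp only [Complex.norm_ofNat]
          linarith
    linarith
  have hcpos : 0 < ‖c‖ := by linarith
  have hc0 : c ≠ 0 := norm_pos_iff.1 hcpos
  have small : ∀ V : ℂ, 16 * p * ‖V‖ < M → ‖-(V / c)‖ ≤ 1 / (4 * p) := by
    intro V hV
    rw [norm_neg, norm_div, div_le_div_iff₀ hcpos (by positivity)]
    nlinarith
  have k1 := norm_pow_sub_one_le' hp0 (small _ h1)
  have k2 := norm_pow_sub_one_le' hp0 (small _ h2)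
  have e1 : 1 + -((b + c) / c) = -(b / c) := by
    field_simp
    ring
  have e2 : 1 + -((c + a) / c) = -(a / c) := by
    field_simp
    ring
  rw [e1, hp.neg_pow, div_pow] at k1
  rw [e2, hp.neg_pow, div_pow] at k2
  have e3 : (-(b ^ p / c ^ p) - 1) + (-(a ^ p / c ^ p) - 1) = -1 := by
    have hcp : c ^ p ≠ 0 := pow_ne_zero _ hc0
    field_simp
    linear_combination -h
  have h5 : ‖(-(b ^ p / c ^ p) - 1) + (-(a ^ p / c ^ p) - 1)‖ ≤ 0.3 + 0.3 :=
    (norm_add_le _ _).trans (add_le_add k1 k2)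
  rw [e3, norm_neg, norm_one] at h5
  norm_num at h5

end Pool.Agent.W5h62.FS
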