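import Pool.Agent.W5h62.FS.Main2
import Pool.Agent.W5h62.FS.Near

/-!
# Small solutions of Fermat's equation and pairs of units
-/

set_option autoImplicit false

namespace Pool.Agent.W5h62.FS

open NumberField IsDedekindDomain Height NumberField.Units
open Pool.Agent.W7.FH

/-- `1 + x ^ p + y ^ p = 0` in nonzero elements of `K`, where `x`, `y` are not the two primitive third roots
of unity, and the logarithmic height of `(1 : x : y)` is at most `L` -/
def Small (K : Type) [Field K] [NumberField K] (L : ℝ) (p : ℕ) (x y : K) : Prop :=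
  x ≠ 0 ∧ y ≠ 0 ∧ 1 + x ^ p + y ^ p = 0 ∧ ¬ (1 + x + y = 0 ∧ x ^ 2 + x + 1 = 0) ∧
    Real.log (mulHeight ![1, x, y]) ≤ L

lemma near_place {K : Type} [Field K] [NumberField K] (w : InfinitePlace K) {p : ℕ} (hp : Odd p)
    {a b c : K} (h : a ^ p + b ^ p + c ^ p = 0) (hc : c + a ≠ 0) :
    w ((a + b) / (c + a)) ≤ 16 * p * max (w ((b + c) / (c + a))) 1 ∧
    w ((b + c) / (c + a)) ≤ 16 * p * max 1 (w ((a + b) / (c + a))) ∧
    1 ≤ 16 * p * max (w ((a + b) / (c + a))) (w ((b + c) / (c + a))) := by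
  have key : ∀ a b c : K, a ^ p + b ^ p + c ^ p = 0 →
      w (a + b) ≤ 16 * p * max (w (b + c)) (w (c + a)) := by
    intro a b c h
    have h1 : w.embedding a ^ p + w.embedding b ^ p + w.embedding c ^ p = 0 := by
      rw [← map_pow, ← map_pow, ← map_pow, ← map_add, ← map_add, h, map_zero]
    have h2 := near hp h1
    rw [← map_add, ← map_add, ← map_add] at h2
    simpa only [InfinitePlace.norm_embedding_eq] using h2
  have k1 := key a b c h
  have k2 := key b c a (by linear_combination h)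
  have k3 := key c a b (by linear_combination h)
  have hpos : 0 < w (c + a) := InfinitePlace.pos_iff.2 hc
  have e : ∀ u v : K, 16 * p * max (w (u / (c + a))) (w (v / (c + a))) =
      16 * p * max (w u) (w v) / w (c + a) := by
    intro u v
    rw [map_div₀, map_div₀, max_div_div_right hpos.le, mul_div_assoc]
  have e1 : (1 : ℝ) = w ((c + a) / (c + a)) := by rw [div_self hc, map_one]
  refine ⟨?_, ?_, ?_⟩
  · rw [e1, e, map_div₀ w (a + b)]
    exact (div_le_div_iff_of_pos_right hpos).2 k1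
  · rw [e1, e, map_div₀ w (b + c)]
    exact (div_le_div_iff_of_pos_right hpos).2 k2
  · rw [e, le_div_iff₀ hpos, one_mul]
    exact k3

theorem setup (K : Type) [Field K] [NumberField K] : ∃ A : ℝ, 0 < A ∧ ∀ L : ℝ, 1 ≤ L →
    ∀ s : Finset (ℕ × K × K), (∀ t ∈ s, t.1.Prime ∧ A * L ≤ t.1 ∧ Small K L t.1 t.2.1 t.2.2) →
      ∃ f : ℕ × K × K → (𝓞 K)ˣ × (𝓞 K)ˣ, Set.InjOn f s ∧ ∀ t ∈ s, ∀ w : InfinitePlace K,
        |Real.log (w (((f t).1 : 𝓞 K) : K))| ≤ (Module.finrank ℚ K + 1) * L ∧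
        |Real.log (w (((f t).2 : 𝓞 K) : K))| ≤ (Module.finrank ℚ K + 1) * L ∧
        w (((f t).1 : 𝓞 K) : K) ≤ 16 * t.1 * max (w (((f t).2 : 𝓞 K) : K)) 1 ∧
        w (((f t).2 : 𝓞 K) : K) ≤ 16 * t.1 * max 1 (w (((f t).1 : 𝓞 K) : K)) ∧
        1 ≤ 16 * t.1 * max (w (((f t).1 : 𝓞 K) : K)) (w (((f t).2 : 𝓞 K) : K)) := by
  classical
  obtain ⟨N0, hN0⟩ := (badU_finite K).bddAbove
  obtain ⟨d, hd⟩ : ∃ d : ℕ, d = Module.finrank ℚ K := ⟨_, rfl⟩
  have hd0 : 0 < d := by rw [hd]; exact Module.finrank_pos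
  obtain ⟨A, hA⟩ : ∃ A : ℝ, A = 5 + 4 * (d : ℝ) ^ 2 + N0 + (d + 3) := ⟨_, rfl⟩
  have hA0 : 0 < A := by rw [hA]; positivity
  refine ⟨A, hA0, ?_⟩
  intro L hL s hs
  rw [← hd]
  obtain ⟨B, hB⟩ : ∃ B : ℝ, B = 2 ^ d * Real.exp L := ⟨_, rfl⟩
  have hl2 : Real.log 2 < 1 := by have := Real.log_two_lt_d9; linarith
  have hl2' : 0.69 < Real.log 2 := by have := Real.log_two_gt_d9; linarith
  have hBpos : 0 < B := by rw [hB]; positivity
  have hlogB : Real.log B = d * Real.log 2 + L := by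
    rw [hB, Real.log_mul (by positivity) (Real.exp_pos _).ne', Real.log_pow, Real.log_exp]
  have hdR : (0 : ℝ) < d := by exact_mod_cast hd0
  have hlogB2 : Real.log B ≤ (d + 1) * L := by rw [hlogB]; nlinarith
  -- every solution gives two units
  have key : ∀ t ∈ s, 5 ≤ t.1 ∧ t.1 ∉ BadU K ∧ (∀ v : FinitePlace K,
      v (1 + t.2.1) = mx v 1 t.2.1 t.2.2 ∧ v (t.2.1 + t.2.2) = mx v 1 t.2.1 t.2.2 ∧
      v (t.2.2 + 1) = mx v 1 t.2.1 t.2.2) ∧
      ∃ f : (𝓞 K)ˣ × (𝓞 K)ˣ, t.2.2 + 1 ≠ 0 ∧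
      ((f.1 : 𝓞 K) : K) = (1 + t.2.1) / (t.2.2 + 1) ∧
      ((f.2 : 𝓞 K) : K) = (t.2.1 + t.2.2) / (t.2.2 + 1) ∧ ∀ w : InfinitePlace K,
        |Real.log (w ((f.1 : 𝓞 K) : K))| ≤ Real.log B ∧
        |Real.log (w ((f.2 : 𝓞 K) : K))| ≤ Real.log B := by
    rintro ⟨p, x, y⟩ hps
    obtain ⟨hp, hpA, hx, hy, h, hnt, hH⟩ := hs _ hps
    simp only at hp hpA hx hy h hnt hH ⊢
    have hpA1 : A ≤ p := le_trans (by nlinarith) hpA
    have hp4 : (0 : ℝ) ≤ 4 * (d : ℝ) ^ 2 := by positivity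
    have hN00 : (0 : ℝ) ≤ (N0 : ℝ) := by positivity
    have h5 : 5 ≤ p := by
      have : (5 : ℝ) ≤ p := by
        rw [hA] at hpA1
        linarith
      exact_mod_cast this
    have hpd : 4 * Module.finrank ℚ K ^ 2 ≤ p := by
      rw [← hd]
      have : (4 : ℝ) * (d : ℝ) ^ 2 ≤ p := by
        rw [hA] at hpA1
        linarith
      exact_mod_cast this
    have hpN : N0 < p := by
      have : (N0 : ℝ) < p := by
        rw [hA] at hpA1
        linarith
      exact_mod_cast this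
    have hbad : p ∉ BadU K := fun h0 => absurd (hN0 h0) (by omega)
    have hmh : 0 < mulHeight ![1, x, y] := mulHeight_pos _
    have hle : (2 : ℝ) ^ d * mulHeight ![1, x, y] ≤ B := by
      rw [hB]
      refine mul_le_mul_of_nonneg_left ?_ (by positivity)
      rwa [← Real.log_le_iff_le_exp hmh]
    have hmain : (2 : ℝ) ^ Module.finrank ℚ K * mulHeight ![1, x, y] < 2 ^ p := by
      rw [← hd]
      refine lt_of_le_of_lt hle ?_
      rw [← Real.log_lt_log_iff hBpos (by positivity), Real.log_pow, hlogB]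
      have h1 : ((d : ℝ) + 5) * L ≤ p := by
        refine le_trans ?_ hpA
        refine mul_le_mul_of_nonneg_right ?_ (by linarith)
        rw [hA]
        linarith
      nlinarith
    have h1p : (1 : K) ^ p + x ^ p + y ^ p = 0 := by rw [one_pow]; exact h
    obtain ⟨ρ, σ, hca, hρ, hσ, hw⟩ := two_units hp h5 hpd one_ne_zero hx hy h1p hmain
    rw [← hd] at hw
    have hlog : Real.log (2 ^ d * mulHeight ![1, x, y]) ≤ Real.log B :=
      Real.log_le_log (by positivity) hle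
    exact ⟨h5, hbad, small_units hp h5 hpd one_ne_zero hx hy h1p hmain, (ρ, σ), hca, hρ, hσ,
      fun w => ⟨(hw w).1.trans hlog, (hw w).2.trans hlog⟩⟩
  have key5 : ∀ t ∈ s, 5 ≤ t.1 := fun t ht => (key t ht).1
  have keyN : ∀ t ∈ s, t.1 ∉ BadU K := fun t ht => (key t ht).2.1
  have keyU := fun t ht => (key t ht).2.2.1
  have key' := fun t ht => (key t ht).2.2.2
  choose! f hf0 hf1 hf2 hf3 using key'
  refine ⟨f, ?_, ?_⟩
  · rintro ⟨p, x, y⟩ hp ⟨q, x', y'⟩ hq hpq
    have a1 := hf1 _ hp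
    have a2 := hf2 _ hp
    have b1 := hf1 _ hq
    have b2 := hf2 _ hq
    have a0 := hf0 _ hp
    have b0 := hf0 _ hq
    rw [← hpq] at b1 b2
    rw [a1] at b1
    rw [a2] at b2
    simp only at a0 b0 b1 b2
    have e1 : 2 / (y + 1) = 2 / (y' + 1) := by
      have c1 : 1 + (1 + x) / (y + 1) - (x + y) / (y + 1) = 2 / (y + 1) := by
        field_simp
        ring
      have c2 : 1 + (1 + x') / (y' + 1) - (x' + y') / (y' + 1) = 2 / (y' + 1) := by
        field_simp
        ring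
      rw [← c1, ← c2, b1, b2]
    have e2 : y = y' := by
      field_simp at e1
      linear_combination -e1
    subst e2
    have e3 : x = x' := by
      field_simp at b1
      linear_combination b1
    subst e3
    by_contra hne
    have hne' : p ≠ q := by
      rintro rfl
      exact hne rfl
    obtain ⟨hpp, -, hx, hy, h, hnt, -⟩ := hs _ hp
    obtain ⟨hqp, -, -, -, h', -, -⟩ := hs _ hq
    simp only at hpp hx hy h hnt hqp h'
    refine keyN _ hp (mem_badU hpp hqp hne' (by have := key5 _ hp; simp only at this; omega)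
      (by have := key5 _ hq; simp only at this; omega) one_ne_zero hx hy (by rw [one_pow]; exact h)
      (by rw [one_pow]; exact h') ?_ (keyU _ hp))
    rintro ⟨g1, g2⟩
    exact hnt ⟨g1, by linear_combination g2⟩
  · intro t ht w
    obtain ⟨hp, -, -, -, h, -, -⟩ := hs _ ht
    have h5 := key5 _ ht
    have hodd : Odd t.1 := hp.odd_of_ne_two (by omega)
    have h1p : (1 : K) ^ t.1 + t.2.1 ^ t.1 + t.2.2 ^ t.1 = 0 := by rw [one_pow]; exact h
    have hn := near_place w hodd h1p (hf0 t ht)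
    rw [← hf1 t ht, ← hf2 t ht] at hn
    exact ⟨(hf3 t ht w).1.trans hlogB2, (hf3 t ht w).2.trans hlogB2, hn⟩

end Pool.Agent.W5h62.FS
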