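import Pool.Agent.W5h62.FS.UnitSol
import Pool.Agent.W5h62.FS.Main

/-!
# A point solves Fermat's equation for few prime exponents
-/

set_option autoImplicit false

namespace Pool.Agent.W5h62.FS

open NumberField IsDedekindDomain Height
open Pool.Agent.W7.FH

variable {K : Type} [Field K] [NumberField K]

lemma val_pow (v : FinitePlace K) {t : K} (ht : v t ≤ 1) (m : ℕ) (h : v (t ^ m - 1) < 1) (k : ℕ) :
    v (t ^ (m * k) - 1) < 1 := by
  induction k with
  | zero => simp
  | succ k ih =>
    have e : t ^ (m * (k + 1)) - 1 = t ^ m * (t ^ (m * k) - 1) + (t ^ m - 1) := by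
      rw [mul_add, pow_add, mul_one]
      ring
    rw [e]
    refine lt_of_le_of_lt (FinitePlace.add_le v _ _) (max_lt ?_ h)
    rw [map_mul, map_pow]
    calc v t ^ m * v (t ^ (m * k) - 1) ≤ 1 * v (t ^ (m * k) - 1) :=
          mul_le_mul_of_nonneg_right (pow_le_one₀ (apply_nonneg _ _) ht) (apply_nonneg _ _)
      _ < 1 := by rw [one_mul]; exact ih

lemma val_coprime (v : FinitePlace K) {t : K} (ht : v t ≤ 1) {p q : ℕ} (hpq : Nat.Coprime p q)
    (hq : 1 < q) (h1 : v (t ^ p - 1) < 1) (h2 : v (t ^ q - 1) < 1) : v (t - 1) < 1 := by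
  obtain ⟨m, hm⟩ := Nat.exists_mul_mod_eq_one_of_coprime hpq hq
  obtain ⟨j, hj⟩ : ∃ j, p * m = q * j + 1 := ⟨p * m / q, by
    have := Nat.div_add_mod (p * m) q
    omega⟩
  have g1 := val_pow v ht p h1 m
  have g2 := val_pow v ht q h2 j
  rw [hj] at g1
  have e : t - 1 = (t ^ (q * j + 1) - 1) + -(t * (t ^ (q * j) - 1)) := by
    rw [pow_succ]
    ring
  rw [e]
  refine lt_of_le_of_lt (FinitePlace.add_le v _ _) (max_lt g1 ?_)
  rw [map_neg_eq_map, map_mul]
  calc v t * v (t ^ (q * j) - 1) ≤ 1 * v (t ^ (q * j) - 1) :=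
        mul_le_mul_of_nonneg_right ht (apply_nonneg _ _)
    _ < 1 := by rw [one_mul]; exact g2

lemma le_mx_one (v : FinitePlace K) (a b c : K) : v a ≤ mx v a b c :=
  le_max_of_le_left (le_max_left _ _)

lemma le_mx_two (v : FinitePlace K) (a b c : K) : v b ≤ mx v a b c :=
  le_max_of_le_left (le_max_right _ _)

lemma le_mx_three (v : FinitePlace K) (a b c : K) : v c ≤ mx v a b c := le_max_right _ _

/-- if the same point is a solution for two primes, its coordinates are units at all finite places -/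
lemma eq_mx (v : FinitePlace K) {p q : ℕ} (hpq : Nat.Coprime p q) (hp : 1 < p) (hq : 1 < q)
    (hop : Odd p) (hoq : Odd q) {a b c : K} (ha : a ≠ 0) (h : a ^ p + b ^ p + c ^ p = 0)
    (h' : a ^ q + b ^ q + c ^ q = 0) (hv : v (a + b) = mx v a b c) : v c = mx v a b c := by
  by_contra hne
  have hlt : v c < mx v a b c := lt_of_le_of_ne (le_mx_three v a b c) hne
  have hc : v (c ^ p) = v (a ^ p + b ^ p) := by
    rw [← map_neg_eq_map v (c ^ p)]
    congr 1
    linear_combination -h
  have hva : v a = v b := by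
    rcases lt_trichotomy (v a) (v b) with h1 | h1 | h1
    · exfalso
      have h2 : v (a ^ p) < v (b ^ p) := by
        rw [map_pow, map_pow]
        exact pow_lt_pow_left₀ h1 (apply_nonneg _ _) (by omega)
      rw [add_comm, add_eq_of_lt v h2, map_pow, map_pow] at hc
      have h3 := (pow_left_inj₀ (apply_nonneg v c) (apply_nonneg v b) (show p ≠ 0 by omega)).1 hc
      apply hne
      unfold mx
      rw [max_eq_right h1.le, h3, max_self]
    · exact h1
    · exfalso
      have h2 : v (b ^ p) < v (a ^ p) := by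
        rw [map_pow, map_pow]
        exact pow_lt_pow_left₀ h1 (apply_nonneg _ _) (by omega)
      rw [add_eq_of_lt v h2, map_pow, map_pow] at hc
      have h3 := (pow_left_inj₀ (apply_nonneg v c) (apply_nonneg v a) (show p ≠ 0 by omega)).1 hc
      apply hne
      unfold mx
      rw [max_eq_left h1.le, h3, max_self]
  have hvpos : 0 < v a := FinitePlace.pos_iff.mpr ha
  have hm : mx v a b c = v a := by
    have h1 : mx v a b c = max (v a) (v c) := by
      unfold mx
      rw [← hva, max_self]
    rw [h1] at hlt ⊢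
    rcases le_total (v a) (v c) with h2 | h2
    · rw [max_eq_right h2] at hlt
      exact absurd hlt (lt_irrefl _)
    · exact max_eq_left h2
  rw [hm] at hlt hv
  have hodd : ∀ n : ℕ, 1 < n → Odd n → a ^ n + b ^ n + c ^ n = 0 → v ((-(b / a)) ^ n - 1) < 1 := by
    intro n hn hon h0
    have e : (-(b / a)) ^ n - 1 = (c / a) ^ n := by
      rw [hon.neg_pow, div_pow, div_pow]
      field_simp
      linear_combination -h0
    rw [e, map_pow, map_div₀]
    have h1 : v c / v a < 1 := (div_lt_one hvpos).2 hlt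
    exact pow_lt_one₀ (div_nonneg (apply_nonneg _ _) hvpos.le) h1 (by omega)
  have h2 : v (-(b / a) - 1) < 1 := by
    refine val_coprime v ?_ hpq hq (hodd p hp hop h) (hodd q hq hoq h')
    rw [map_neg_eq_map, map_div₀, ← hva, div_self hvpos.ne']
  have h3 : v (-(b / a) - 1) = 1 := by
    have e : -(b / a) - 1 = -((a + b) / a) := by
      field_simp
      ring
    rw [e, map_neg_eq_map, map_div₀, hv, div_self hvpos.ne']
  linarith

/-- a nontrivial point which is a solution for two primes -/
lemma mem_badU {p q : ℕ} (hp : p.Prime) (hq : q.Prime) (hpq : p ≠ q) (hp3 : 3 ≤ p) (hq3 : 3 ≤ q)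
    {a b c : K} (ha : a ≠ 0) (hb : b ≠ 0) (hc : c ≠ 0)
    (h : a ^ p + b ^ p + c ^ p = 0) (h' : a ^ q + b ^ q + c ^ q = 0)
    (hnt : ¬ (a + b + c = 0 ∧ a ^ 2 + a * b + b ^ 2 = 0))
    (hu : ∀ v : FinitePlace K, v (a + b) = mx v a b c ∧ v (b + c) = mx v a b c ∧
      v (c + a) = mx v a b c) : p ∈ BadU K := by
  have hcop : Nat.Coprime p q := (Nat.coprime_primes hp hq).2 hpq
  have op : Odd p := hp.odd_of_ne_two (by omega)
  have oq : Odd q := hq.odd_of_ne_two (by omega)
  have hvc : ∀ v : FinitePlace K, v c = mx v a b c := fun v =>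
    eq_mx v hcop hp.one_lt hq.one_lt op oq ha h h' (hu v).1
  have hva : ∀ v : FinitePlace K, v a = mx v a b c := fun v => by
    have := eq_mx v hcop hp.one_lt hq.one_lt op oq hb (a := b) (b := c) (c := a)
      (by linear_combination h) (by linear_combination h') (by rw [mx_rot]; exact (hu v).2.1)
    rw [mx_rot] at this
    exact this
  have hvb : ∀ v : FinitePlace K, v b = mx v a b c := fun v => by
    have := eq_mx v hcop hp.one_lt hq.one_lt op oq hc (a := c) (b := a) (c := b)
      (by linear_combination h) (by linear_combination h') (by rw [mx_rot, mx_rot]; exact (hu v).2.2)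
    rw [mx_rot, mx_rot] at this
    exact this
  have hpos : ∀ v : FinitePlace K, 0 < mx v a b c := fun v => by
    rw [← hva v]; exact FinitePlace.pos_iff.mpr ha
  obtain ⟨s, hs1⟩ := exists_unit (b / a) (div_ne_zero hb ha) fun v => by
    rw [map_div₀, hvb, hva, div_self (hpos v).ne']
  obtain ⟨r, hr1⟩ := exists_unit (c / a) (div_ne_zero hc ha) fun v => by
    rw [map_div₀, hvc, hva, div_self (hpos v).ne']
  refine ⟨hp, s, r, ?_, ?_⟩
  · rw [hs1, hr1, div_pow, div_pow]
    field_simp
    linear_combination h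
  · rw [hs1, hr1]
    rintro ⟨h1, h2⟩
    apply hnt
    field_simp at h1 h2
    exact ⟨by linear_combination h1, by linear_combination h2⟩

/-- solutions with sum zero -/
lemma mem_badU_of_sum_zero {p : ℕ} (hp : p.Prime) {a b c : K} (ha : a ≠ 0)
    (hb : b ≠ 0) (hc : c ≠ 0) (h : a ^ p + b ^ p + c ^ p = 0)
    (hs : a + b + c = 0) (hw : a ^ 2 + a * b + b ^ 2 ≠ 0)
    (hu : ∀ v : FinitePlace K, v (a + b) = mx v a b c ∧ v (b + c) = mx v a b c ∧
      v (c + a) = mx v a b c) : p ∈ BadU K := by
  have hva : ∀ v : FinitePlace K, v a = mx v a b c := fun v => by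
    rw [← (hu v).2.1, show b + c = -a by linear_combination hs, map_neg_eq_map]
  have hvb : ∀ v : FinitePlace K, v b = mx v a b c := fun v => by
    rw [← (hu v).2.2, show c + a = -b by linear_combination hs, map_neg_eq_map]
  have hvc : ∀ v : FinitePlace K, v c = mx v a b c := fun v => by
    rw [← (hu v).1, show a + b = -c by linear_combination hs, map_neg_eq_map]
  have hpos : ∀ v : FinitePlace K, 0 < mx v a b c := fun v => by
    rw [← hva v]; exact FinitePlace.pos_iff.mpr ha
  obtain ⟨s, hs1⟩ := exists_unit (b / a) (div_ne_zero hb ha) fun v => by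
    rw [map_div₀, hvb, hva, div_self (hpos v).ne']
  obtain ⟨r, hr1⟩ := exists_unit (c / a) (div_ne_zero hc ha) fun v => by
    rw [map_div₀, hvc, hva, div_self (hpos v).ne']
  refine ⟨hp, s, r, ?_, ?_⟩
  · rw [hs1, hr1, div_pow, div_pow]
    field_simp
    linear_combination h
  · rw [hs1, hr1]
    rintro ⟨_, h2⟩
    apply hw
    field_simp at h2
    linear_combination h2

end Pool.Agent.W5h62.FS
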