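import Pool.Agent.W5h62.FS.Sum

/-!
# Solutions of Fermat's equation in units
-/

set_option autoImplicit false

namespace Pool.Agent.W5h62.FS

open NumberField
open Pool.Agent.Helper259.AbsHt

variable (K : Type) [Field K] [NumberField K]

/-- the prime exponents of solutions in units, not proportional to a permutation of `(1, ω, ω ^ 2)` -/
def BadU : Set ℕ := {p | p.Prime ∧ ∃ s r : (𝓞 K)ˣ,
  (1 : K) + ((s : 𝓞 K) : K) ^ p + ((r : 𝓞 K) : K) ^ p = 0 ∧
  ¬ ((1 : K) + ((s : 𝓞 K) : K) + ((r : 𝓞 K) : K) = 0 ∧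
    ((s : 𝓞 K) : K) ^ 2 + ((s : 𝓞 K) : K) + 1 = 0)}

variable {K}

omit [NumberField K] in
/-- a unit `s` with `s ^ p = s ^ q` -/
lemma tor_aux {s : (𝓞 K)ˣ} {p q : ℕ} (hpq : p ≠ q) (h : s ^ p = s ^ q) :
    s ^ Units.torsionOrder K = 1 := by
  have h1 : IsOfFinOrder s := by
    rw [isOfFinOrder_iff_pow_eq_one]
    rcases lt_or_gt_of_ne hpq with hlt | hlt
    · refine ⟨q - p, by omega, ?_⟩
      have h2 : s ^ p * s ^ (q - p) = s ^ p * 1 := by
        rw [← pow_add, Nat.add_sub_cancel' hlt.le, mul_one, h]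
      exact mul_left_cancel h2
    · refine ⟨p - q, by omega, ?_⟩
      have h2 : s ^ q * s ^ (p - q) = s ^ q * 1 := by
        rw [← pow_add, Nat.add_sub_cancel' hlt.le, mul_one, h]
      exact mul_left_cancel h2
  have h3 : s ∈ Units.torsion K := (CommGroup.mem_torsion _).2 h1
  have h4 : (⟨s, h3⟩ : Units.torsion K) ^ Units.torsionOrder K = 1 := by
    unfold Units.torsionOrder
    exact pow_card_eq_one'
  have h5 := congrArg (Subtype.val) h4
  simpa using h5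

/-- a root of unity whose `p`-th power is a primitive third root of unity -/
lemma cube_aux {s : (𝓞 K)ˣ} {p : ℕ} (hp : p.Prime) (ht : s ^ Units.torsionOrder K = 1)
    (hpt : Units.torsionOrder K < p)
    (h : (((s : 𝓞 K) : K) ^ p) ^ 2 + ((s : 𝓞 K) : K) ^ p + 1 = 0) :
    ((s : 𝓞 K) : K) ^ 2 + ((s : 𝓞 K) : K) + 1 = 0 := by
  have ht0 : 0 < Units.torsionOrder K := Units.torsionOrder_pos K
  have h1 : ((s : 𝓞 K) : K) ^ (p * 3) = 1 := by
    have : (((s : 𝓞 K) : K) ^ p) ^ 3 - 1 = 0 := by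
      linear_combination ((((s : 𝓞 K) : K) ^ p) - 1) * h
    rw [pow_mul]
    linear_combination this
  have h2 : s ^ (p * 3) = 1 := by
    apply Units.ext
    apply RingOfIntegers.ext
    simpa using h1
  have h3 : orderOf s ∣ p * 3 := orderOf_dvd_of_pow_eq_one h2
  have h4 : orderOf s ∣ Units.torsionOrder K := orderOf_dvd_of_pow_eq_one ht
  have h5 : Nat.Coprime (orderOf s) p := by
    rw [Nat.coprime_comm, hp.coprime_iff_not_dvd]
    intro h6
    have := Nat.le_of_dvd ht0 (h6.trans h4)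
    omega
  have h6 : orderOf s ∣ 3 := h5.dvd_of_dvd_mul_left h3
  have h7 : s ^ 3 = 1 := orderOf_dvd_iff_pow_eq_one.1 h6
  have h8 : ((s : 𝓞 K) : K) ^ 3 = 1 := by
    have := congrArg (fun u : (𝓞 K)ˣ => ((u : 𝓞 K) : K)) h7
    simpa using this
  have h9 : ((s : 𝓞 K) : K) ≠ 1 := by
    intro h0
    rw [h0] at h
    norm_num at h
  have h10 : (((s : 𝓞 K) : K) - 1) * (((s : 𝓞 K) : K) ^ 2 + ((s : 𝓞 K) : K) + 1) = 0 := by
    linear_combination h8
  exact (mul_eq_zero.1 h10).resolve_left (sub_ne_zero.2 h9)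

variable (K)

theorem badU_finite : (BadU K).Finite := by
  classical
  obtain ⟨φ⟩ : Nonempty (K →ₐ[ℚ] Qbar) := ⟨IsAlgClosed.lift⟩
  obtain ⟨ψ, hψ⟩ : ∃ ψ : (𝓞 K)ˣ →* Qbarˣ, ∀ u : (𝓞 K)ˣ, ((ψ u : Qbarˣ) : Qbar) = φ ((u : 𝓞 K) : K) :=
    ⟨Units.map ((φ : K →+* Qbar).comp (algebraMap (𝓞 K) K) : 𝓞 K →* Qbar), fun u => rfl⟩
  have hfg : Group.FG (𝓞 K)ˣ := Group.fg_iff_monoid_fg.2 inferInstance
  have hΓ : (ψ.range).FG := (Group.fg_iff_subgroup_fg _).1 (Group.fg_range ψ)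
  have hF := Pool.Agent.Y556.TW.unit_eq ψ.range hΓ
  obtain ⟨F, hFd⟩ : ∃ F : Set Qbar,
      F = {u : Qbar | ∃ v ∈ ψ.range, ∃ w ∈ ψ.range, u = v ∧ (v : Qbar) + w = 1} := ⟨_, rfl⟩
  rw [← hFd] at hF
  have hmem : ∀ s r : (𝓞 K)ˣ, (1 : K) + ((s : 𝓞 K) : K) + ((r : 𝓞 K) : K) = 0 →
      φ ((s : 𝓞 K) : K) ∈ (fun x => -x) '' F := by
    intro s r h
    refine ⟨-φ ((s : 𝓞 K) : K), ?_, by simp⟩
    rw [hFd]
    refine ⟨ψ (-s), ⟨-s, rfl⟩, ψ (-r), ⟨-r, rfl⟩, ?_, ?_⟩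
    · rw [hψ]
      simp
    · rw [hψ, hψ]
      have h1 : φ (1 + ((s : 𝓞 K) : K) + ((r : 𝓞 K) : K)) = 0 := by rw [h, map_zero]
      rw [map_add, map_add, map_one] at h1
      simp only [Units.val_neg, map_neg]
      linear_combination -h1
  have hF' : ((fun x : Qbar => -x) '' F).Finite := hF.image _
  -- the units `s` with `1 + s + r = 0`
  obtain ⟨G, hG⟩ : ∃ G : Set K, G = {x : K | φ x ∈ (fun x : Qbar => -x) '' F} := ⟨_, rfl⟩
  have hGf : G.Finite := by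
    rw [hG]
    exact hF'.preimage (φ.injective.injOn)
  -- a bound for the conjugates
  obtain ⟨M, hM⟩ : ∃ M : ℝ, ∀ x ∈ G, ∀ ι : K →+* ℂ, ‖ι x‖ ≤ M := by
    have hf : (⋃ ι : K →+* ℂ, (fun x => ‖ι x‖) '' G).Finite :=
      Set.finite_iUnion fun ι => hGf.image _
    obtain ⟨M, hM⟩ := hf.bddAbove
    exact ⟨M, fun x hx ι => hM (Set.mem_iUnion.2 ⟨ι, x, hx, rfl⟩)⟩
  obtain ⟨T, hT⟩ : ∃ T : Set K, T = {x : K | IsIntegral ℤ x ∧ ∀ ι : K →+* ℂ, ‖ι x‖ ≤ max 1 M} :=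
    ⟨_, rfl⟩
  have hTf : T.Finite := by
    rw [hT]
    exact NumberField.Embeddings.finite_of_norm_le K ℂ (max 1 M)
  obtain ⟨ι⟩ : Nonempty (K →+* ℂ) := inferInstance
  have key : ∀ p ∈ BadU K, p.Prime ∧ ∃ s r : (𝓞 K)ˣ,
      (1 : K) + ((s : 𝓞 K) : K) ^ p + ((r : 𝓞 K) : K) ^ p = 0 ∧
      ¬ ((1 : K) + ((s : 𝓞 K) : K) + ((r : 𝓞 K) : K) = 0 ∧
        ((s : 𝓞 K) : K) ^ 2 + ((s : 𝓞 K) : K) + 1 = 0) := fun p hp => hp
  have hprime : ∀ p ∈ BadU K, p.Prime := fun p hp => (key p hp).1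
  have key2 := fun p hp => (key p hp).2
  choose! s r hs using key2
  have hinj : Set.InjOn (fun p : ℕ => (((s p : 𝓞 K) : K), ((r p : 𝓞 K) : K),
      ((s p : 𝓞 K) : K) ^ p, ((r p : 𝓞 K) : K) ^ p)) (BadU K ∩ Set.Ioi (Units.torsionOrder K)) := by
    rintro p ⟨hp, hpt⟩ q ⟨hq, hqt⟩ hpq
    by_contra hne
    obtain ⟨h1, h2⟩ := hs p hp
    simp only [Prod.mk.injEq] at hpq
    obtain ⟨e1, e2, e3, e4⟩ := hpq
    rw [← e1] at e3
    rw [← e2] at e4
    have f3 : s p ^ p = s p ^ q := by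
      apply Units.ext
      apply RingOfIntegers.ext
      simpa using e3
    have f4 : r p ^ p = r p ^ q := by
      apply Units.ext
      apply RingOfIntegers.ext
      simpa using e4
    have t3 := tor_aux hne f3
    have t4 := tor_aux hne f4
    have norm_one : ∀ u : (𝓞 K)ˣ, u ^ Units.torsionOrder K = 1 → ‖ι ((u : 𝓞 K) : K)‖ = 1 := by
      intro u hu
      have h5 : ((u : 𝓞 K) : K) ^ Units.torsionOrder K = 1 := by
        have := congrArg (fun u : (𝓞 K)ˣ => ((u : 𝓞 K) : K)) hu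
        simpa using this
      have h6 : ι ((u : 𝓞 K) : K) ^ Units.torsionOrder K = 1 := by
        rw [← map_pow ι, h5, map_one]
      exact Complex.norm_eq_one_of_pow_eq_one h6 (Units.torsionOrder_pos K).ne'
    have n1 : ‖ι (((s p : 𝓞 K) : K) ^ p)‖ = 1 := by
      rw [map_pow ι, norm_pow, norm_one _ t3, one_pow]
    have n2 : ‖ι (((r p : 𝓞 K) : K) ^ p)‖ = 1 := by
      rw [map_pow ι, norm_pow, norm_one _ t4, one_pow]
    have h7 : ι (((r p : 𝓞 K) : K) ^ p) = -(1 + ι (((s p : 𝓞 K) : K) ^ p)) := by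
      have h8 := congrArg ι h1
      rw [map_add ι, map_add ι, map_one ι, map_zero ι] at h8
      linear_combination h8
    have h7' : ι (((s p : 𝓞 K) : K) ^ p) = -(1 + ι (((r p : 𝓞 K) : K) ^ p)) := by
      linear_combination h7
    have w1 : (((s p : 𝓞 K) : K) ^ p) ^ 2 + ((s p : 𝓞 K) : K) ^ p + 1 = 0 := by
      have n3 := n2
      rw [h7, norm_neg] at n3
      have h9 := omega_of_norm n1 n3
      apply ι.injective
      rw [map_zero ι, ← h9, map_add ι, map_add ι, map_pow ι _ 2, map_one ι]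
    have w2 : (((r p : 𝓞 K) : K) ^ p) ^ 2 + ((r p : 𝓞 K) : K) ^ p + 1 = 0 := by
      have n3 := n1
      rw [h7', norm_neg] at n3
      have h9 := omega_of_norm n2 n3
      apply ι.injective
      rw [map_zero ι, ← h9, map_add ι, map_add ι, map_pow ι _ 2, map_one ι]
    have v1 := cube_aux (hprime p hp) t3 hpt w1
    have v2 := cube_aux (hprime p hp) t4 hpt w2
    apply h2
    refine ⟨?_, v1⟩
    have h10 : (((r p : 𝓞 K) : K) - ((s p : 𝓞 K) : K)) *
        (1 + ((s p : 𝓞 K) : K) + ((r p : 𝓞 K) : K)) = 0 := by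
      linear_combination v2 - v1
    rcases mul_eq_zero.1 h10 with h11 | h11
    · exfalso
      have h12 : ((r p : 𝓞 K) : K) = ((s p : 𝓞 K) : K) := sub_eq_zero.1 h11
      rw [h12] at h1
      have h13 : (3 : K) = 0 := by
        linear_combination 4 * w1 - (2 * ((s p : 𝓞 K) : K) ^ p + 1) * h1
      norm_num at h13
    · exact h11
  have hfin : (BadU K ∩ Set.Ioi (Units.torsionOrder K)).Finite := by
    refine Set.Finite.of_injOn (t := T ×ˢ (T ×ˢ (G ×ˢ G))) ?_ hinj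
      (hTf.prod (hTf.prod (hGf.prod hGf)))
    rintro p ⟨hp, _⟩
    obtain ⟨h1, h2⟩ := hs p hp
    have hp0 : p ≠ 0 := (hprime p hp).ne_zero
    have hG1 : ((s p : 𝓞 K) : K) ^ p ∈ G := by
      rw [hG]
      have := hmem ((s p) ^ p) ((r p) ^ p) (by
        simp only [Units.val_pow_eq_pow_val, map_pow]
        exact h1)
      simpa using this
    have hG2 : ((r p : 𝓞 K) : K) ^ p ∈ G := by
      rw [hG]
      have := hmem ((r p) ^ p) ((s p) ^ p) (by
        simp only [Units.val_pow_eq_pow_val, map_pow]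
        linear_combination h1)
      simpa using this
    have hTT : ∀ u : (𝓞 K)ˣ, ((u : 𝓞 K) : K) ^ p ∈ G → ((u : 𝓞 K) : K) ∈ T := by
      intro u hu
      rw [hT]
      refine ⟨(u : 𝓞 K).2, fun κ => ?_⟩
      have h3 := hM _ hu κ
      rw [map_pow κ, norm_pow] at h3
      by_contra h4
      rw [not_le, max_lt_iff] at h4
      have h5 : ‖κ ((u : 𝓞 K) : K)‖ ≤ ‖κ ((u : 𝓞 K) : K)‖ ^ p := le_self_pow₀ h4.1.le hp0
      linarith [h4.2]
    exact ⟨hTT _ hG1, hTT _ hG2, hG1, hG2⟩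
  refine (hfin.union (Set.finite_Iic (Units.torsionOrder K))).subset ?_
  intro p hp
  rcases le_or_gt p (Units.torsionOrder K) with h | h
  · exact Or.inr h
  · exact Or.inl ⟨hp, h⟩

end Pool.Agent.W5h62.FS
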